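import Mathlib

/-!
# Commutative ℓ-bimonoids, varieties, complemented Dedekind-MacNeille completions, injective hulls

Definitions for the problem MP_edd14c_al.
-/

universe u

namespace Pool.Agent.Lib.MP_edd14c_al

/-- A commutative ℓ-bimonoid: a lattice with two commutative monoid structures `(*, 1)` and
`(+, 0)` such that `*` distributes over binary joins, `+` distributes over binary meets (so both
are monotone), and `x * (y + z) ≤ x * y + z` (hemidistributivity). -/
class CommLBimonoid (A : Type u) extends Lattice A, CommMonoid A, AddCommMonoid A where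
  mul_sup_distrib : ∀ x y z : A, x * (y ⊔ z) = x * y ⊔ x * z
  add_inf_distrib : ∀ x y z : A, x + (y ⊓ z) = (x + y) ⊓ (x + z)
  hemidistrib : ∀ x y z : A, x * (y + z) ≤ x * y + z

/-- Homomorphisms of commutative ℓ-bimonoids preserve `*`, `+`, `1`, `0`, meets and joins. -/
structure BHom (A B : Type u) [CommLBimonoid A] [CommLBimonoid B] where
  toFun : A → B
  map_one' : toFun 1 = 1
  map_zero' : toFun 0 = 0
  map_mul' : ∀ x y, toFun (x * y) = toFun x * toFun y
  map_add' : ∀ x y, toFun (x + y) = toFun x + toFun y
  map_inf' : ∀ x y, toFun (x ⊓ y) = toFun x ⊓ toFun y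
  map_sup' : ∀ x y, toFun (x ⊔ y) = toFun x ⊔ toFun y

instance (A B : Type u) [CommLBimonoid A] [CommLBimonoid B] : CoeFun (BHom A B) (fun _ => A → B) :=
  ⟨BHom.toFun⟩

/-- Terms in countably many variables in the signature of commutative ℓ-bimonoids. -/
inductive Tm : Type
  | var : ℕ → Tm
  | one : Tm
  | zero : Tm
  | mul : Tm → Tm → Tm
  | add : Tm → Tm → Tm
  | inf : Tm → Tm → Tm
  | sup : Tm → Tm → Tm

/-- Value of a term in a commutative ℓ-bimonoid. -/
def Tm.eval {A : Type u} [CommLBimonoid A] (v : ℕ → A) : Tm → A
  | .var n => v n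
  | .one => 1
  | .zero => 0
  | .mul s t => s.eval v * t.eval v
  | .add s t => s.eval v + t.eval v
  | .inf s t => s.eval v ⊓ t.eval v
  | .sup s t => s.eval v ⊔ t.eval v

/-- `A` belongs to the variety of commutative ℓ-bimonoids defined by the set `Eqs` of
equations. -/
def InVariety (Eqs : Set (Tm × Tm)) (A : Type u) [CommLBimonoid A] : Prop :=
  ∀ p ∈ Eqs, ∀ v : ℕ → A, p.1.eval v = p.2.eval v

/-- `A` is a bounded distributive lattice, viewed as a commutative ℓ-bimonoid:
`* = ⊓`, `+ = ⊔`, `1` is the top and `0` is the bottom. -/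
def IsBDL (A : Type u) [CommLBimonoid A] : Prop :=
  (∀ x y : A, x * y = x ⊓ y) ∧ (∀ x y : A, x + y = x ⊔ y) ∧ (∀ x : A, x ≤ 1) ∧
    (∀ x : A, 0 ≤ x)

/-- `a` and `b` are complements: `a * b ≤ 0` and `1 ≤ a + b`. -/
def IsComplementPair {A : Type u} [CommLBimonoid A] (a b : A) : Prop :=
  a * b ≤ 0 ∧ 1 ≤ a + b

/-- The embedding `e : A → B` exhibits `B` as the complemented Dedekind-MacNeille completion
of `A`: `B` is complete and complemented, `e` is an injective homomorphism, and every element of
`B` is a join of elements `e a * c` where `c` is a complement of some `e a'`. -/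
structure IsComplDMCompletion {A B : Type u} [CommLBimonoid A] [CommLBimonoid B]
    (e : BHom A B) : Prop where
  injective : Function.Injective e
  complete : ∀ s : Set B, ∃ b : B, IsLUB s b
  complemented : ∀ b : B, ∃ c : B, IsComplementPair b c
  dense : ∀ b : B, ∃ s : Set B,
    (∀ x ∈ s, ∃ a a' : A, ∃ c : B, IsComplementPair (e a') c ∧ x = e a * c) ∧ IsLUB s b

/-- `E` is injective in the variety defined by `Eqs`: homomorphisms into `E` extend along
embeddings of algebras of the variety. -/
def IsInjectiveIn (Eqs : Set (Tm × Tm)) (E : Type u) [CommLBimonoid E] : Prop :=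
  ∀ (A B : Type u) [CommLBimonoid A] [CommLBimonoid B], InVariety Eqs A → InVariety Eqs B →
    ∀ i : BHom A B, Function.Injective i → ∀ f : BHom A E,
      ∃ g : BHom B E, ∀ a : A, g (i a) = f a

/-- The embedding `e : A → E` is essential in the variety defined by `Eqs`: every homomorphism
`f` from `E` to an algebra of the variety with `f ∘ e` injective is injective. -/
def IsEssentialIn (Eqs : Set (Tm × Tm)) {A E : Type u} [CommLBimonoid A] [CommLBimonoid E]
    (e : BHom A E) : Prop :=
  Function.Injective e ∧ ∀ (C : Type u) [CommLBimonoid C], InVariety Eqs C →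
    ∀ f : BHom E C, Function.Injective (fun a : A => f (e a)) → Function.Injective f

/-- `e : A → E` is an injective hull of `A` in the variety defined by `Eqs`: `E` is in the
variety, `e` is an essential embedding and `E` is injective in the variety. -/
def IsInjectiveHull (Eqs : Set (Tm × Tm)) {A E : Type u} [CommLBimonoid A] [CommLBimonoid E]
    (e : BHom A E) : Prop :=
  InVariety Eqs E ∧ IsEssentialIn Eqs e ∧ IsInjectiveIn Eqs E

end Pool.Agent.Lib.MP_edd14c_al
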