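import Pool.Agent.Lib.MP_edd14c_al.Structure

/-!
# Completions and injective hulls in the variety generated by `B2` and `B4`
-/

set_option linter.unusedSectionVars false
set_option linter.unusedSimpArgs false
set_option linter.unnecessarySeqFocus false

universe u

namespace Pool.Agent.Lib.MP_edd14c_al

section Skeleton

variable (A : Type u) [CommLBimonoid A] [InV A]

/-- the first skeleton: elements below `T1` -/
def D1 : Type u := {x : A // x ⊓ T1 = x}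

/-- the second skeleton: elements fixed by multiplication by `T2` -/
def D2 : Type u := {x : A // x * T2 = x}

variable {A}

theorem bot_le_all (x : A) : T1 ⊓ T2 ≤ x := inf_eq_left.1 (bot_id x)

instance : Lattice (D1 A) where
  le x y := x.1 ≤ y.1
  le_refl x := le_refl x.1
  le_trans x y z := fun h h' => le_trans (a := x.1) h h'
  le_antisymm x y := fun h h' => Subtype.ext (le_antisymm h h')
  sup x y := ⟨x.1 ⊔ y.1, inf_eq_left.2 (sup_le (inf_eq_left.1 x.2) (inf_eq_left.1 y.2))⟩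
  inf x y := ⟨x.1 ⊓ y.1, inf_eq_left.2 (inf_le_left.trans (inf_eq_left.1 x.2))⟩
  le_sup_left x y := le_sup_left (a := x.1)
  le_sup_right x y := le_sup_right (b := y.1)
  sup_le x y z := fun h h' => sup_le (a := x.1) h h'
  inf_le_left x y := inf_le_left (a := x.1)
  inf_le_right x y := inf_le_right (b := y.1)
  le_inf x y z := fun h h' => le_inf (show x.1 ≤ y.1 from h) (show x.1 ≤ z.1 from h')

instance : DistribLattice (D1 A) :=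
  DistribLattice.ofInfSupLe (fun x y z => by
    show x.1 ⊓ (y.1 ⊔ z.1) ≤ (x.1 ⊓ y.1) ⊔ (x.1 ⊓ z.1)
    exact (inf_sup_id x.1 y.1 z.1).le)

instance : BoundedOrder (D1 A) where
  top := ⟨T1, inf_idem _⟩
  le_top x := by
    show x.1 ≤ T1
    exact inf_eq_left.1 x.2
  bot := ⟨T1 ⊓ T2, inf_eq_left.2 inf_le_left⟩
  bot_le x := by
    show T1 ⊓ T2 ≤ x.1
    exact bot_le_all x.1

instance : Lattice (D2 A) where
  le x y := x.1 ≤ y.1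
  le_refl x := le_refl x.1
  le_trans x y z := fun h h' => le_trans (a := x.1) h h'
  le_antisymm x y := fun h h' => Subtype.ext (le_antisymm h h')
  sup x y := ⟨x.1 ⊔ y.1, by
    have := sup_mem_id x.1 y.1
    rwa [x.2, y.2] at this⟩
  inf x y := ⟨x.1 ⊓ y.1, by
    have := inf_mem_id x.1 y.1
    rwa [x.2, y.2] at this⟩
  le_sup_left x y := le_sup_left (a := x.1)
  le_sup_right x y := le_sup_right (b := y.1)
  sup_le x y z := fun h h' => sup_le (a := x.1) h h'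
  inf_le_left x y := inf_le_left (a := x.1)
  inf_le_right x y := inf_le_right (b := y.1)
  le_inf x y z := fun h h' => le_inf (show x.1 ≤ y.1 from h) (show x.1 ≤ z.1 from h')

instance : DistribLattice (D2 A) :=
  DistribLattice.ofInfSupLe (fun x y z => by
    show x.1 ⊓ (y.1 ⊔ z.1) ≤ (x.1 ⊓ y.1) ⊔ (x.1 ⊓ z.1)
    exact (inf_sup_id x.1 y.1 z.1).le)

instance : BoundedOrder (D2 A) where
  top := ⟨T2, T2_mem⟩
  le_top x := by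
    have := mem_le_id x.1
    rw [x.2] at this
    show x.1 ≤ T2
    exact inf_eq_left.1 this
  bot := ⟨T1 ⊓ T2, bot_mem_id⟩
  bot_le x := by
    show T1 ⊓ T2 ≤ x.1
    exact bot_le_all x.1

/-- coordinates -/
def q0 (x : A) : D1 A := ⟨p0 x, by unfold p0; rw [inf_assoc, inf_idem]⟩
def q1 (x : A) : D2 A := ⟨p1 x, p1_mem x⟩
def q2 (x : A) : D2 A := ⟨p2 x, p2_mem x⟩
def q3 (x : A) : D2 A := ⟨p3 x, p3_mem x⟩

theorem q21 (x : A) : q2 x ≤ q1 x := by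
  show p2 x ≤ p1 x
  exact inf_eq_left.1 (p21_id x)
theorem q32 (x : A) : q3 x ≤ q2 x := by
  show p3 x ≤ p2 x
  exact inf_eq_left.1 (p32_id x)

theorem q_injective {x y : A} (h0 : q0 x = q0 y) (h1 : q1 x = q1 y) (h2 : q2 x = q2 y)
    (h3 : q3 x = q3 y) : x = y := by
  have h0' : p0 x = p0 y := congrArg Subtype.val h0
  have h1' : p1 x = p1 y := congrArg Subtype.val h1
  have h2' : p2 x = p2 y := congrArg Subtype.val h2
  have h3' : p3 x = p3 y := congrArg Subtype.val h3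
  rw [← recon_id x, ← recon_id y, h0', h1', h2', h3']

end Skeleton

section HomOf

variable {A : Type u} [CommLBimonoid A] [InV A]
variable {E₁ E₂ : Type u} [DistribLattice E₁] [DistribLattice E₂] [BoundedOrder E₁]
  [BoundedOrder E₂]

/-- a pair of lattice homomorphisms on the skeletons gives a homomorphism into `Md E₁ E₂` -/
def homOf (g₁ : BoundedLatticeHom (D1 A) E₁) (g₂ : BoundedLatticeHom (D2 A) E₂) :
    BHom A (Md E₁ E₂) where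
  toFun x := ⟨g₁ (q0 x), g₂ (q1 x), g₂ (q2 x), g₂ (q3 x), OrderHomClass.mono g₂ (q21 x),
    OrderHomClass.mono g₂ (q32 x)⟩
  map_one' := by
    apply Md.ext
    · show g₁ (q0 1) = ⊤
      rw [show q0 (1 : A) = ⊤ from Subtype.ext p0_one, map_top]
    · show g₂ (q1 1) = ⊤
      rw [show q1 (1 : A) = ⊤ from Subtype.ext p1_one, map_top]
    · show g₂ (q2 1) = ⊥
      rw [show q2 (1 : A) = ⊥ from Subtype.ext p2_one, map_bot]
    · show g₂ (q3 1) = ⊥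
      rw [show q3 (1 : A) = ⊥ from Subtype.ext p3_one, map_bot]
  map_zero' := by
    apply Md.ext
    · show g₁ (q0 0) = ⊥
      rw [show q0 (0 : A) = ⊥ from Subtype.ext p0_zero, map_bot]
    · show g₂ (q1 0) = ⊤
      rw [show q1 (0 : A) = ⊤ from Subtype.ext p1_zero, map_top]
    · show g₂ (q2 0) = ⊤
      rw [show q2 (0 : A) = ⊤ from Subtype.ext p2_zero, map_top]
    · show g₂ (q3 0) = ⊥
      rw [show q3 (0 : A) = ⊥ from Subtype.ext p3_zero, map_bot]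
  map_mul' x y := by
    apply Md.ext
    · show g₁ (q0 (x * y)) = g₁ (q0 x) ⊓ g₁ (q0 y)
      rw [show q0 (x * y) = q0 x ⊓ q0 y from Subtype.ext (p0_mul x y), map_inf]
    · show g₂ (q1 (x * y)) = g₂ (q1 x) ⊓ g₂ (q1 y)
      rw [show q1 (x * y) = q1 x ⊓ q1 y from Subtype.ext (p1_mul x y), map_inf]
    · show g₂ (q2 (x * y)) = (g₂ (q2 x) ⊓ g₂ (q1 y)) ⊔ (g₂ (q1 x) ⊓ g₂ (q2 y))
      rw [show q2 (x * y) = (q2 x ⊓ q1 y) ⊔ (q1 x ⊓ q2 y) from Subtype.ext (p2_mul x y),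
        map_sup, map_inf, map_inf]
    · show g₂ (q3 (x * y)) = (g₂ (q2 x) ⊓ g₂ (q2 y)) ⊔
        ((g₂ (q3 x) ⊓ g₂ (q1 y)) ⊔ (g₂ (q1 x) ⊓ g₂ (q3 y)))
      rw [show q3 (x * y) = (q2 x ⊓ q2 y) ⊔ ((q3 x ⊓ q1 y) ⊔ (q1 x ⊓ q3 y)) from
        Subtype.ext (p3_mul x y), map_sup, map_sup, map_inf, map_inf, map_inf]
  map_add' x y := by
    apply Md.ext
    · show g₁ (q0 (x + y)) = g₁ (q0 x) ⊔ g₁ (q0 y)
      rw [show q0 (x + y) = q0 x ⊔ q0 y from Subtype.ext (p0_add x y), map_sup]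
    · show g₂ (q1 (x + y)) = ((g₂ (q1 x) ⊓ g₂ (q2 y)) ⊔ (g₂ (q2 x) ⊓ g₂ (q1 y))) ⊔
        (g₂ (q3 x) ⊔ g₂ (q3 y))
      rw [show q1 (x + y) = ((q1 x ⊓ q2 y) ⊔ (q2 x ⊓ q1 y)) ⊔ (q3 x ⊔ q3 y) from
        Subtype.ext (p1_add x y), map_sup, map_sup, map_sup, map_inf, map_inf]
    · show g₂ (q2 (x + y)) = (g₂ (q2 x) ⊓ g₂ (q2 y)) ⊔ (g₂ (q3 x) ⊔ g₂ (q3 y))
      rw [show q2 (x + y) = (q2 x ⊓ q2 y) ⊔ (q3 x ⊔ q3 y) from Subtype.ext (p2_add x y),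
        map_sup, map_sup, map_inf]
    · show g₂ (q3 (x + y)) = g₂ (q3 x) ⊔ g₂ (q3 y)
      rw [show q3 (x + y) = q3 x ⊔ q3 y from Subtype.ext (p3_add x y), map_sup]
  map_inf' x y := by
    apply Md.ext
    · show g₁ (q0 (x ⊓ y)) = g₁ (q0 x) ⊓ g₁ (q0 y)
      rw [show q0 (x ⊓ y) = q0 x ⊓ q0 y from Subtype.ext (p0_inf x y), map_inf]
    · show g₂ (q1 (x ⊓ y)) = g₂ (q1 x) ⊓ g₂ (q1 y)
      rw [show q1 (x ⊓ y) = q1 x ⊓ q1 y from Subtype.ext (p1_inf x y), map_inf]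
    · show g₂ (q2 (x ⊓ y)) = g₂ (q2 x) ⊓ g₂ (q2 y)
      rw [show q2 (x ⊓ y) = q2 x ⊓ q2 y from Subtype.ext (p2_inf x y), map_inf]
    · show g₂ (q3 (x ⊓ y)) = g₂ (q3 x) ⊓ g₂ (q3 y)
      rw [show q3 (x ⊓ y) = q3 x ⊓ q3 y from Subtype.ext (p3_inf x y), map_inf]
  map_sup' x y := by
    apply Md.ext
    · show g₁ (q0 (x ⊔ y)) = g₁ (q0 x) ⊔ g₁ (q0 y)
      rw [show q0 (x ⊔ y) = q0 x ⊔ q0 y from Subtype.ext (p0_sup x y), map_sup]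
    · show g₂ (q1 (x ⊔ y)) = g₂ (q1 x) ⊔ g₂ (q1 y)
      rw [show q1 (x ⊔ y) = q1 x ⊔ q1 y from Subtype.ext (p1_sup x y), map_sup]
    · show g₂ (q2 (x ⊔ y)) = g₂ (q2 x) ⊔ g₂ (q2 y)
      rw [show q2 (x ⊔ y) = q2 x ⊔ q2 y from Subtype.ext (p2_sup x y), map_sup]
    · show g₂ (q3 (x ⊔ y)) = g₂ (q3 x) ⊔ g₂ (q3 y)
      rw [show q3 (x ⊔ y) = q3 x ⊔ q3 y from Subtype.ext (p3_sup x y), map_sup]

end HomOf

section Coordinates

variable {E₁ E₂ : Type u} [DistribLattice E₁] [DistribLattice E₂] [BoundedOrder E₁]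
  [BoundedOrder E₂]

/-- coordinates of `T1` and `T2` in `Md E₁ E₂` -/
theorem Md.T1_eq : (T1 : Md E₁ E₂) = ⟨⊤, ⊥, ⊥, ⊥, le_rfl, le_rfl⟩ := by
  apply Md.ext
  · show (⊤ : E₁) ⊔ ⊤ = ⊤
    simp
  · show (((⊤ : E₂) ⊓ ⊥) ⊔ (⊥ ⊓ ⊤)) ⊔ (⊥ ⊔ ⊥) = ⊥
    simp
  · show ((⊥ : E₂) ⊓ ⊥) ⊔ (⊥ ⊔ ⊥) = ⊥
    simp
  · show (⊥ : E₂) ⊔ ⊥ = ⊥
    simp

theorem Md.T2_eq : (T2 : Md E₁ E₂) = ⟨⊥, ⊤, ⊤, ⊤, le_rfl, le_rfl⟩ := by
  apply Md.ext
  · show (⊥ : E₁) ⊓ ⊥ = ⊥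
    simp
  · show (⊤ : E₂) ⊓ ⊤ = ⊤
    simp
  · show ((⊤ : E₂) ⊓ ⊤) ⊔ (⊤ ⊓ ⊤) = ⊤
    simp
  · show ((⊤ : E₂) ⊓ ⊤) ⊔ ((⊥ ⊓ ⊤) ⊔ (⊤ ⊓ ⊥)) = ⊤
    simp

/-- the first embedding -/
def Md.i0 (z : E₁) : Md E₁ E₂ := ⟨z, ⊥, ⊥, ⊥, le_rfl, le_rfl⟩
/-- the second embedding -/
def Md.i1 (z : E₂) : Md E₁ E₂ := ⟨⊥, z, z, z, le_rfl, le_rfl⟩

theorem Md.p0_eq (u : Md E₁ E₂) : p0 u = Md.i0 u.c0 := by
  unfold p0
  rw [Md.T1_eq]
  apply Md.ext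
  · exact inf_top_eq _
  · exact inf_bot_eq _
  · exact inf_bot_eq _
  · exact inf_bot_eq _

theorem Md.p1_eq (u : Md E₁ E₂) : p1 u = Md.i1 u.c1 := by
  unfold p1
  rw [Md.T2_eq]
  apply Md.ext
  · exact inf_bot_eq _
  · exact inf_top_eq _
  · show (u.c2 ⊓ ⊤) ⊔ (u.c1 ⊓ ⊤) = u.c1
    rw [inf_top_eq, inf_top_eq]
    exact sup_eq_right.2 u.h21
  · show (u.c2 ⊓ ⊤) ⊔ ((u.c3 ⊓ ⊤) ⊔ (u.c1 ⊓ ⊤)) = u.c1
    rw [inf_top_eq, inf_top_eq, inf_top_eq, sup_eq_right.2 (u.h32.trans u.h21)]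
    exact sup_eq_right.2 u.h21

theorem Md.p2_eq (u : Md E₁ E₂) : p2 u = Md.i1 u.c2 := by
  have h : p2 u = p1 (u + 1) := rfl
  rw [h, Md.p1_eq]
  congr 1
  show ((u.c1 ⊓ ⊥) ⊔ (u.c2 ⊓ ⊤)) ⊔ (u.c3 ⊔ ⊥) = u.c2
  rw [inf_bot_eq, bot_sup_eq, inf_top_eq, sup_bot_eq]
  exact sup_eq_left.2 u.h32

theorem Md.p3_eq (u : Md E₁ E₂) : p3 u = Md.i1 u.c3 := by
  unfold p3
  rw [Md.T1_eq, Md.T2_eq]
  apply Md.ext
  · exact inf_bot_eq _
  · show (((u.c1 ⊓ ⊥) ⊔ (u.c2 ⊓ ⊥)) ⊔ (u.c3 ⊔ ⊥)) ⊓ ⊤ = u.c3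
    simp
  · show ((u.c2 ⊓ ⊥) ⊔ (u.c3 ⊔ ⊥)) ⊓ ⊤ = u.c3
    simp
  · show (u.c3 ⊔ ⊥) ⊓ ⊤ = u.c3
    simp

end Coordinates

section Injectivity

variable {A B : Type u} [CommLBimonoid A] [InV A] [CommLBimonoid B] [InV B]

theorem BHom.map_T1 (f : BHom A B) : f T1 = T1 := by
  show f (1 + 1) = 1 + 1
  rw [f.map_add, f.map_one]

theorem BHom.map_T2 (f : BHom A B) : f T2 = T2 := by
  show f (0 * 0) = 0 * 0
  rw [f.map_mul, f.map_zero]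

theorem BHom.map_p0 (f : BHom A B) (x : A) : f (p0 x) = p0 (f x) := by
  unfold p0
  rw [f.map_inf, f.map_T1]

theorem BHom.map_p1 (f : BHom A B) (x : A) : f (p1 x) = p1 (f x) := by
  unfold p1
  rw [f.map_mul, f.map_T2]

theorem BHom.map_p2 (f : BHom A B) (x : A) : f (p2 x) = p2 (f x) := by
  unfold p2
  rw [f.map_mul, f.map_T2, f.map_add, f.map_one]

theorem BHom.map_p3 (f : BHom A B) (x : A) : f (p3 x) = p3 (f x) := by
  unfold p3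
  rw [f.map_inf, f.map_T2, f.map_add, f.map_T1]

/-- functoriality of the first skeleton -/
def BHom.d1 (f : BHom A B) : BoundedLatticeHom (D1 A) (D1 B) where
  toFun x := ⟨f x.1, by rw [← f.map_T1, ← f.map_inf, x.2]⟩
  map_sup' x y := Subtype.ext (f.map_sup x.1 y.1)
  map_inf' x y := Subtype.ext (f.map_inf x.1 y.1)
  map_top' := Subtype.ext f.map_T1
  map_bot' := Subtype.ext (by
    show f (T1 ⊓ T2) = T1 ⊓ T2
    rw [f.map_inf, f.map_T1, f.map_T2])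

/-- functoriality of the second skeleton -/
def BHom.d2 (f : BHom A B) : BoundedLatticeHom (D2 A) (D2 B) where
  toFun x := ⟨f x.1, by rw [← f.map_T2, ← f.map_mul, x.2]⟩
  map_sup' x y := Subtype.ext (f.map_sup x.1 y.1)
  map_inf' x y := Subtype.ext (f.map_inf x.1 y.1)
  map_top' := Subtype.ext f.map_T2
  map_bot' := Subtype.ext (by
    show f (T1 ⊓ T2) = T1 ⊓ T2
    rw [f.map_inf, f.map_T1, f.map_T2])

variable {E₁ E₂ : Type u}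

/-- the first skeleton of `Md E₁ E₂` is `E₁` -/
def Md.k0 [DistribLattice E₁] [DistribLattice E₂] [BoundedOrder E₁] [BoundedOrder E₂] :
    BoundedLatticeHom (D1 (Md E₁ E₂)) E₁ where
  toFun x := x.1.c0
  map_sup' x y := rfl
  map_inf' x y := rfl
  map_top' := by
    show (T1 : Md E₁ E₂).c0 = ⊤
    rw [Md.T1_eq]
  map_bot' := by
    show ((T1 : Md E₁ E₂) ⊓ T2).c0 = ⊥
    rw [Md.T1_eq, Md.T2_eq]
    exact inf_bot_eq _

/-- the second skeleton of `Md E₁ E₂` is `E₂` -/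
def Md.k1 [DistribLattice E₁] [DistribLattice E₂] [BoundedOrder E₁] [BoundedOrder E₂] :
    BoundedLatticeHom (D2 (Md E₁ E₂)) E₂ where
  toFun x := x.1.c1
  map_sup' x y := rfl
  map_inf' x y := rfl
  map_top' := by
    show (T2 : Md E₁ E₂).c1 = ⊤
    rw [Md.T2_eq]
  map_bot' := by
    show ((T1 : Md E₁ E₂) ⊓ T2).c1 = ⊥
    rw [Md.T1_eq, Md.T2_eq]
    exact bot_inf_eq _

theorem Md.isInjectiveIn [CompleteBooleanAlgebra E₁] [CompleteBooleanAlgebra E₂] :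
    IsInjectiveIn theEqs (Md E₁ E₂) := by
  intro A B _ _ hA hB i hi f
  haveI : InV A := ⟨hA⟩
  haveI : InV B := ⟨hB⟩
  have hi1 : Function.Injective i.d1 := fun x y hxy =>
    Subtype.ext (hi (congrArg Subtype.val hxy))
  have hi2 : Function.Injective i.d2 := fun x y hxy =>
    Subtype.ext (hi (congrArg Subtype.val hxy))
  obtain ⟨g₁, hg₁⟩ := sikorski i.d1 hi1 (Md.k0.comp f.d1)
  obtain ⟨g₂, hg₂⟩ := sikorski i.d2 hi2 (Md.k1.comp f.d2)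
  refine ⟨homOf g₁ g₂, fun a => ?_⟩
  apply Md.ext
  · show g₁ (q0 (i a)) = (f a).c0
    have : q0 (i a) = i.d1 (q0 a) := Subtype.ext (i.map_p0 a).symm
    rw [this, hg₁]
    show (f (p0 a)).c0 = (f a).c0
    rw [f.map_p0, Md.p0_eq]
    rfl
  · show g₂ (q1 (i a)) = (f a).c1
    have : q1 (i a) = i.d2 (q1 a) := Subtype.ext (i.map_p1 a).symm
    rw [this, hg₂]
    show (f (p1 a)).c1 = (f a).c1
    rw [f.map_p1, Md.p1_eq]
    rfl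
  · show g₂ (q2 (i a)) = (f a).c2
    have : q2 (i a) = i.d2 (q2 a) := Subtype.ext (i.map_p2 a).symm
    rw [this, hg₂]
    show (f (p2 a)).c1 = (f a).c2
    rw [f.map_p2, Md.p2_eq]
    rfl
  · show g₂ (q3 (i a)) = (f a).c3
    have : q3 (i a) = i.d2 (q3 a) := Subtype.ext (i.map_p3 a).symm
    rw [this, hg₂]
    show (f (p3 a)).c1 = (f a).c3
    rw [f.map_p3, Md.p3_eq]
    rfl

end Injectivity

section Completion

variable {A : Type u} [CommLBimonoid A] [InV A]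
variable {E₁ E₂ : Type u} [CompleteBooleanAlgebra E₁] [CompleteBooleanAlgebra E₂]

/-- complement in `Md E₁ E₂` -/
def Md.neg (u : Md E₁ E₂) : Md E₁ E₂ :=
  ⟨u.c0ᶜ, u.c3ᶜ, u.c2ᶜ, u.c1ᶜ, compl_le_compl u.h32, compl_le_compl u.h21⟩

theorem Md.neg_pair (u : Md E₁ E₂) : IsComplementPair u u.neg := by
  refine ⟨⟨?_, ?_, ?_, ?_⟩, ⟨?_, ?_, ?_, ?_⟩⟩
  · show u.c0 ⊓ u.c0ᶜ ≤ ⊥
    rw [inf_compl_self]
  · exact le_top
  · exact le_top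
  · show (u.c2 ⊓ u.c2ᶜ) ⊔ ((u.c3 ⊓ u.c3ᶜ) ⊔ (u.c1 ⊓ u.c1ᶜ)) ≤ ⊥
    simp
  · show ⊤ ≤ u.c0 ⊔ u.c0ᶜ
    rw [sup_compl_eq_top]
  · show ⊤ ≤ ((u.c1 ⊓ u.c2ᶜ) ⊔ (u.c2 ⊓ u.c3ᶜ)) ⊔ (u.c3 ⊔ u.c1ᶜ)
    have h1 : u.c2 ≤ (u.c2 ⊓ u.c3ᶜ) ⊔ u.c3 := by
      rw [sup_inf_right, compl_sup_eq_top, inf_top_eq]
      exact le_sup_left
    have h2 : u.c2ᶜ ≤ (u.c1 ⊓ u.c2ᶜ) ⊔ u.c1ᶜ := by
      rw [sup_inf_right, sup_compl_eq_top, top_inf_eq]
      exact le_sup_left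
    calc (⊤ : E₂) = u.c2ᶜ ⊔ u.c2 := compl_sup_eq_top.symm
      _ ≤ ((u.c1 ⊓ u.c2ᶜ) ⊔ u.c1ᶜ) ⊔ ((u.c2 ⊓ u.c3ᶜ) ⊔ u.c3) := sup_le_sup h2 h1
      _ = ((u.c1 ⊓ u.c2ᶜ) ⊔ (u.c2 ⊓ u.c3ᶜ)) ⊔ (u.c1ᶜ ⊔ u.c3) := sup_sup_sup_comm _ _ _ _
      _ = ((u.c1 ⊓ u.c2ᶜ) ⊔ (u.c2 ⊓ u.c3ᶜ)) ⊔ (u.c3 ⊔ u.c1ᶜ) := by rw [sup_comm u.c1ᶜ]
  · exact bot_le
  · exact bot_le

theorem Md.complete (s : Set (Md E₁ E₂)) : ∃ b, IsLUB s b := by
  refine ⟨⟨⨆ x : s, x.1.c0, ⨆ x : s, x.1.c1, ⨆ x : s, x.1.c2, ⨆ x : s, x.1.c3,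
    iSup_mono fun x => x.1.h21, iSup_mono fun x => x.1.h32⟩, ?_, ?_⟩
  · intro x hx
    exact ⟨le_iSup (fun x : s => x.1.c0) ⟨x, hx⟩, le_iSup (fun x : s => x.1.c1) ⟨x, hx⟩,
      le_iSup (fun x : s => x.1.c2) ⟨x, hx⟩, le_iSup (fun x : s => x.1.c3) ⟨x, hx⟩⟩
  · intro y hy
    exact ⟨iSup_le fun x => (hy x.2).1, iSup_le fun x => (hy x.2).2.1,
      iSup_le fun x => (hy x.2).2.2.1, iSup_le fun x => (hy x.2).2.2.2⟩

theorem isComplDMCompletion_homOf (j₁ : BoundedLatticeHom (D1 A) E₁)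
    (j₂ : BoundedLatticeHom (D2 A) E₂) (hj₁ : Function.Injective j₁)
    (hj₂ : Function.Injective j₂)
    (hd₁ : ∀ z : E₁, IsLUB {w | w ≤ z ∧ ∃ x y : D1 A, w = j₁ x ⊓ (j₁ y)ᶜ} z)
    (hd₂ : ∀ z : E₂, IsLUB {w | w ≤ z ∧ ∃ x y : D2 A, w = j₂ x ⊓ (j₂ y)ᶜ} z) :
    IsComplDMCompletion (homOf j₁ j₂) where
  injective := by
    intro x y hxy
    have h0 : j₁ (q0 x) = j₁ (q0 y) := congrArg Md.c0 hxy
    have h1 : j₂ (q1 x) = j₂ (q1 y) := congrArg Md.c1 hxy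
    have h2 : j₂ (q2 x) = j₂ (q2 y) := congrArg Md.c2 hxy
    have h3 : j₂ (q3 x) = j₂ (q3 y) := congrArg Md.c3 hxy
    exact q_injective (hj₁ h0) (hj₂ h1) (hj₂ h2) (hj₂ h3)
  complete := Md.complete
  complemented b := ⟨b.neg, b.neg_pair⟩
  dense := by
    intro b
    refine ⟨{x | (∃ a a' : A, ∃ c, IsComplementPair (homOf j₁ j₂ a') c ∧
      x = homOf j₁ j₂ a * c) ∧ x ≤ b}, fun x hx => hx.1, fun x hx => hx.2, ?_⟩
    intro w hw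
    -- values of the embedding on special elements
    have val : ∀ (a : A) (u0 : D1 A) (u1 u2 u3 : D2 A), p0 a = u0.1 → p1 a = u1.1 →
        p2 a = u2.1 → p3 a = u3.1 → (homOf j₁ j₂ a).c0 = j₁ u0 ∧ (homOf j₁ j₂ a).c1 = j₂ u1 ∧
        (homOf j₁ j₂ a).c2 = j₂ u2 ∧ (homOf j₁ j₂ a).c3 = j₂ u3 := by
      intro a u0 u1 u2 u3 h0 h1 h2 h3
      refine ⟨?_, ?_, ?_, ?_⟩
      · show j₁ (q0 a) = _
        rw [show q0 a = u0 from Subtype.ext h0]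
      · show j₂ (q1 a) = _
        rw [show q1 a = u1 from Subtype.ext h1]
      · show j₂ (q2 a) = _
        rw [show q2 a = u2 from Subtype.ext h2]
      · show j₂ (q3 a) = _
        rw [show q3 a = u3 from Subtype.ext h3]
    refine ⟨?_, ?_, ?_, ?_⟩
    · apply (hd₁ b.c0).2
      rintro z ⟨hz, x, y, rfl⟩
      obtain ⟨e0, e1, e2, e3⟩ := d1_id x.1
      obtain ⟨f0, f1, f2, f3⟩ := d1_id y.1
      rw [x.2] at e0 e1 e2 e3
      rw [y.2] at f0 f1 f2 f3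
      obtain ⟨v0, v1, v2, v3⟩ := val x.1 x ⊥ ⊥ ⊥ e0 e1 e2 e3
      obtain ⟨w0, w1, w2, w3⟩ := val y.1 y ⊥ ⊥ ⊥ f0 f1 f2 f3
      have key : homOf j₁ j₂ x.1 * (homOf j₁ j₂ y.1).neg = Md.i0 (j₁ x ⊓ (j₁ y)ᶜ) := by
        apply Md.ext
        · show (homOf j₁ j₂ x.1).c0 ⊓ (homOf j₁ j₂ y.1).c0ᶜ = _
          rw [v0, w0]; rfl
        · show (homOf j₁ j₂ x.1).c1 ⊓ (homOf j₁ j₂ y.1).c3ᶜ = ⊥
          rw [v1, map_bot, bot_inf_eq]
        · show ((homOf j₁ j₂ x.1).c2 ⊓ (homOf j₁ j₂ y.1).c3ᶜ) ⊔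
            ((homOf j₁ j₂ x.1).c1 ⊓ (homOf j₁ j₂ y.1).c2ᶜ) = ⊥
          rw [v1, v2, map_bot, bot_inf_eq, bot_inf_eq, bot_sup_eq]
        · show ((homOf j₁ j₂ x.1).c2 ⊓ (homOf j₁ j₂ y.1).c2ᶜ) ⊔
            (((homOf j₁ j₂ x.1).c3 ⊓ (homOf j₁ j₂ y.1).c3ᶜ) ⊔
            ((homOf j₁ j₂ x.1).c1 ⊓ (homOf j₁ j₂ y.1).c1ᶜ)) = ⊥
          rw [v1, v2, v3, map_bot, bot_inf_eq, bot_inf_eq, bot_inf_eq, bot_sup_eq, bot_sup_eq]
      have := hw (a := Md.i0 (j₁ x ⊓ (j₁ y)ᶜ)) ⟨⟨x.1, y.1, (homOf j₁ j₂ y.1).neg,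
        Md.neg_pair _, key.symm⟩, ⟨hz, bot_le, bot_le, bot_le⟩⟩
      exact this.1
    · apply (hd₂ b.c1).2
      rintro z ⟨hz, x, y, rfl⟩
      obtain ⟨e0, e1, e2, e3⟩ := d2one_id x.1
      obtain ⟨f0, f1, f2, f3⟩ := d2sup_id y.1
      rw [x.2] at e0 e1 e2 e3
      rw [y.2] at f0 f1 f2 f3
      obtain ⟨v0, v1, v2, v3⟩ := val (x.1 ⊓ 1) ⊥ x ⊥ ⊥ e0 e1 e2 e3
      obtain ⟨w0, w1, w2, w3⟩ := val (0 ⊔ y.1) ⊥ ⊤ ⊤ y f0 f1 f2 f3
      have key : (homOf j₁ j₂ (x.1 ⊓ 1) * (homOf j₁ j₂ (0 ⊔ y.1)).neg).c1 = j₂ x ⊓ (j₂ y)ᶜ := by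
        show (homOf j₁ j₂ (x.1 ⊓ 1)).c1 ⊓ (homOf j₁ j₂ (0 ⊔ y.1)).c3ᶜ = _
        rw [v1, w3]
      have hle : homOf j₁ j₂ (x.1 ⊓ 1) * (homOf j₁ j₂ (0 ⊔ y.1)).neg ≤ b := by
        refine ⟨?_, ?_, ?_, ?_⟩
        · show (homOf j₁ j₂ (x.1 ⊓ 1)).c0 ⊓ _ ≤ _
          rw [v0, map_bot, bot_inf_eq]
          exact bot_le
        · rw [key]
          exact hz
        · show ((homOf j₁ j₂ (x.1 ⊓ 1)).c2 ⊓ _) ⊔
            ((homOf j₁ j₂ (x.1 ⊓ 1)).c1 ⊓ (homOf j₁ j₂ (0 ⊔ y.1)).c2ᶜ) ≤ _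
          rw [v2, w2, map_bot, map_top, compl_top, inf_bot_eq, bot_inf_eq, bot_sup_eq]
          exact bot_le
        · show ((homOf j₁ j₂ (x.1 ⊓ 1)).c2 ⊓ _) ⊔
            (((homOf j₁ j₂ (x.1 ⊓ 1)).c3 ⊓ _) ⊔
            ((homOf j₁ j₂ (x.1 ⊓ 1)).c1 ⊓ (homOf j₁ j₂ (0 ⊔ y.1)).c1ᶜ)) ≤ _
          rw [v2, v3, w1, map_bot, map_top, compl_top, inf_bot_eq, bot_inf_eq, bot_inf_eq,
            bot_sup_eq, bot_sup_eq]
          exact bot_le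
      have := hw (a := homOf j₁ j₂ (x.1 ⊓ 1) * (homOf j₁ j₂ (0 ⊔ y.1)).neg)
        ⟨⟨x.1 ⊓ 1, 0 ⊔ y.1, _, Md.neg_pair _, rfl⟩, hle⟩
      rw [← key]
      exact this.2.1
    · apply (hd₂ b.c2).2
      rintro z ⟨hz, x, y, rfl⟩
      obtain ⟨e0, e1, e2, e3⟩ := d2zero_id x.1
      obtain ⟨f0, f1, f2, f3⟩ := d2sup_id y.1
      rw [x.2] at e0 e1 e2 e3
      rw [y.2] at f0 f1 f2 f3
      obtain ⟨v0, v1, v2, v3⟩ := val (x.1 ⊓ 0) ⊥ x x ⊥ e0 e1 e2 e3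
      obtain ⟨w0, w1, w2, w3⟩ := val (0 ⊔ y.1) ⊥ ⊤ ⊤ y f0 f1 f2 f3
      have key : (homOf j₁ j₂ (x.1 ⊓ 0) * (homOf j₁ j₂ (0 ⊔ y.1)).neg).c2 = j₂ x ⊓ (j₂ y)ᶜ := by
        show ((homOf j₁ j₂ (x.1 ⊓ 0)).c2 ⊓ (homOf j₁ j₂ (0 ⊔ y.1)).c3ᶜ) ⊔
            ((homOf j₁ j₂ (x.1 ⊓ 0)).c1 ⊓ (homOf j₁ j₂ (0 ⊔ y.1)).c2ᶜ) = _
        rw [v2, w3, w2, map_top, compl_top, inf_bot_eq, sup_bot_eq]
      have hle : homOf j₁ j₂ (x.1 ⊓ 0) * (homOf j₁ j₂ (0 ⊔ y.1)).neg ≤ b := by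
        refine ⟨?_, ?_, ?_, ?_⟩
        · show (homOf j₁ j₂ (x.1 ⊓ 0)).c0 ⊓ _ ≤ _
          rw [v0, map_bot, bot_inf_eq]
          exact bot_le
        · show (homOf j₁ j₂ (x.1 ⊓ 0)).c1 ⊓ (homOf j₁ j₂ (0 ⊔ y.1)).c3ᶜ ≤ _
          rw [v1, w3]
          exact hz.trans b.h21
        · rw [key]
          exact hz
        · show ((homOf j₁ j₂ (x.1 ⊓ 0)).c2 ⊓ (homOf j₁ j₂ (0 ⊔ y.1)).c2ᶜ) ⊔
            (((homOf j₁ j₂ (x.1 ⊓ 0)).c3 ⊓ _) ⊔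
            ((homOf j₁ j₂ (x.1 ⊓ 0)).c1 ⊓ (homOf j₁ j₂ (0 ⊔ y.1)).c1ᶜ)) ≤ _
          rw [v3, w1, w2, map_bot, map_top, compl_top, inf_bot_eq, inf_bot_eq, bot_inf_eq,
            bot_sup_eq, bot_sup_eq]
          exact bot_le
      have := hw (a := homOf j₁ j₂ (x.1 ⊓ 0) * (homOf j₁ j₂ (0 ⊔ y.1)).neg)
        ⟨⟨x.1 ⊓ 0, 0 ⊔ y.1, _, Md.neg_pair _, rfl⟩, hle⟩
      rw [← key]
      exact this.2.2.1
    · apply (hd₂ b.c3).2
      rintro z ⟨hz, x, y, rfl⟩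
      obtain ⟨e0, e1, e2, e3⟩ := d2_id x.1
      obtain ⟨f0, f1, f2, f3⟩ := d2sup_id y.1
      rw [x.2] at e0 e1 e2 e3
      rw [y.2] at f0 f1 f2 f3
      obtain ⟨v0, v1, v2, v3⟩ := val x.1 ⊥ x x x e0 e1 e2 e3
      obtain ⟨w0, w1, w2, w3⟩ := val (0 ⊔ y.1) ⊥ ⊤ ⊤ y f0 f1 f2 f3
      have key : (homOf j₁ j₂ x.1 * (homOf j₁ j₂ (0 ⊔ y.1)).neg).c3 = j₂ x ⊓ (j₂ y)ᶜ := by
        show ((homOf j₁ j₂ x.1).c2 ⊓ (homOf j₁ j₂ (0 ⊔ y.1)).c2ᶜ) ⊔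
            (((homOf j₁ j₂ x.1).c3 ⊓ (homOf j₁ j₂ (0 ⊔ y.1)).c3ᶜ) ⊔
            ((homOf j₁ j₂ x.1).c1 ⊓ (homOf j₁ j₂ (0 ⊔ y.1)).c1ᶜ)) = _
        rw [v3, w1, w2, w3, map_top, compl_top, inf_bot_eq, inf_bot_eq, sup_bot_eq, bot_sup_eq]
      have hle : homOf j₁ j₂ x.1 * (homOf j₁ j₂ (0 ⊔ y.1)).neg ≤ b := by
        refine ⟨?_, ?_, ?_, ?_⟩
        · show (homOf j₁ j₂ x.1).c0 ⊓ _ ≤ _
          rw [v0, map_bot, bot_inf_eq]
          exact bot_le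
        · show (homOf j₁ j₂ x.1).c1 ⊓ (homOf j₁ j₂ (0 ⊔ y.1)).c3ᶜ ≤ _
          rw [v1, w3]
          exact hz.trans (b.h32.trans b.h21)
        · show ((homOf j₁ j₂ x.1).c2 ⊓ (homOf j₁ j₂ (0 ⊔ y.1)).c3ᶜ) ⊔
            ((homOf j₁ j₂ x.1).c1 ⊓ (homOf j₁ j₂ (0 ⊔ y.1)).c2ᶜ) ≤ _
          rw [v2, w3, w2, map_top, compl_top, inf_bot_eq, sup_bot_eq]
          exact hz.trans b.h32
        · rw [key]
          exact hz
      have := hw (a := homOf j₁ j₂ x.1 * (homOf j₁ j₂ (0 ⊔ y.1)).neg)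
        ⟨⟨x.1, 0 ⊔ y.1, _, Md.neg_pair _, rfl⟩, hle⟩
      rw [← key]
      exact this.2.2.2

theorem dense_of_isLUB {D E : Type u} [DistribLattice D] [BoundedOrder D]
    [CompleteBooleanAlgebra E] (j : BoundedLatticeHom D E)
    (hd : ∀ z : E, IsLUB {w | w ≤ z ∧ ∃ x y : D, w = j x ⊓ (j y)ᶜ} z) :
    ∀ z : E, z ≠ ⊥ → ∃ x y : D, j x ⊓ (j y)ᶜ ≤ z ∧ j x ⊓ (j y)ᶜ ≠ ⊥ := by
  intro z hz
  by_contra hcon
  push Not at hcon
  apply hz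
  apply le_bot_iff.1
  apply (hd z).2
  rintro w ⟨hw, x, y, rfl⟩
  rw [hcon x y hw]

theorem isInjectiveHull_homOf (j₁ : BoundedLatticeHom (D1 A) E₁)
    (j₂ : BoundedLatticeHom (D2 A) E₂) (hj₁ : Function.Injective j₁)
    (hj₂ : Function.Injective j₂)
    (hd₁ : ∀ z : E₁, IsLUB {w | w ≤ z ∧ ∃ x y : D1 A, w = j₁ x ⊓ (j₁ y)ᶜ} z)
    (hd₂ : ∀ z : E₂, IsLUB {w | w ≤ z ∧ ∃ x y : D2 A, w = j₂ x ⊓ (j₂ y)ᶜ} z) :
    IsInjectiveHull theEqs (homOf j₁ j₂) := by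
  have hc := isComplDMCompletion_homOf j₁ j₂ hj₁ hj₂ hd₁ hd₂
  refine ⟨InV.out, ⟨hc.injective, ?_⟩, Md.isInjectiveIn⟩
  intro C _ hC f hf
  haveI : InV C := ⟨hC⟩
  have hf' : ∀ a a' : A, f (homOf j₁ j₂ a) = f (homOf j₁ j₂ a') → a = a' := fun a a' h => hf h
  -- the restriction to the first skeleton
  have h0 : Function.Injective (fun z : E₁ => f (Md.i0 z)) := by
    apply injective_of_dense j₁ (dense_of_isLUB j₁ hd₁)
    · intro x y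
      show f (Md.i0 (x ⊓ y)) = f (Md.i0 x) ⊓ f (Md.i0 y)
      rw [← f.map_inf]
      congr 1
      exact Md.ext rfl (inf_idem _).symm (inf_idem _).symm (inf_idem _).symm
    · intro x y
      show f (Md.i0 (x ⊔ y)) = f (Md.i0 x) ⊔ f (Md.i0 y)
      rw [← f.map_sup]
      congr 1
      exact Md.ext rfl (sup_idem _).symm (sup_idem _).symm (sup_idem _).symm
    · intro x y hxy
      have key : ∀ x : D1 A, homOf j₁ j₂ x.1 = Md.i0 (j₁ x) := by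
        intro x
        obtain ⟨e0, e1, e2, e3⟩ := d1_id x.1
        rw [x.2] at e0 e1 e2 e3
        apply Md.ext
        · show j₁ (q0 x.1) = j₁ x
          rw [show q0 x.1 = x from Subtype.ext e0]
        · show j₂ (q1 x.1) = ⊥
          rw [show q1 x.1 = ⊥ from Subtype.ext e1, map_bot]
        · show j₂ (q2 x.1) = ⊥
          rw [show q2 x.1 = ⊥ from Subtype.ext e2, map_bot]
        · show j₂ (q3 x.1) = ⊥
          rw [show q3 x.1 = ⊥ from Subtype.ext e3, map_bot]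
      apply Subtype.ext
      apply hf'
      rw [key, key]
      exact hxy
  have h1 : Function.Injective (fun z : E₂ => f (Md.i1 z)) := by
    apply injective_of_dense j₂ (dense_of_isLUB j₂ hd₂)
    · intro x y
      show f (Md.i1 (x ⊓ y)) = f (Md.i1 x) ⊓ f (Md.i1 y)
      rw [← f.map_inf]
      congr 1
      exact Md.ext (inf_idem _).symm rfl rfl rfl
    · intro x y
      show f (Md.i1 (x ⊔ y)) = f (Md.i1 x) ⊔ f (Md.i1 y)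
      rw [← f.map_sup]
      congr 1
      exact Md.ext (sup_idem _).symm rfl rfl rfl
    · intro x y hxy
      have key : ∀ x : D2 A, homOf j₁ j₂ x.1 = Md.i1 (j₂ x) := by
        intro x
        obtain ⟨e0, e1, e2, e3⟩ := d2_id x.1
        rw [x.2] at e0 e1 e2 e3
        apply Md.ext
        · show j₁ (q0 x.1) = ⊥
          rw [show q0 x.1 = ⊥ from Subtype.ext e0, map_bot]
        · show j₂ (q1 x.1) = j₂ x
          rw [show q1 x.1 = x from Subtype.ext e1]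
        · show j₂ (q2 x.1) = j₂ x
          rw [show q2 x.1 = x from Subtype.ext e2]
        · show j₂ (q3 x.1) = j₂ x
          rw [show q3 x.1 = x from Subtype.ext e3]
      apply Subtype.ext
      apply hf'
      rw [key, key]
      exact hxy
  intro u v huv
  apply Md.ext
  · apply h0
    show f (Md.i0 u.c0) = f (Md.i0 v.c0)
    rw [← Md.p0_eq, ← Md.p0_eq, f.map_p0, f.map_p0, huv]
  · apply h1
    show f (Md.i1 u.c1) = f (Md.i1 v.c1)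
    rw [← Md.p1_eq, ← Md.p1_eq, f.map_p1, f.map_p1, huv]
  · apply h1
    show f (Md.i1 u.c2) = f (Md.i1 v.c2)
    rw [← Md.p2_eq, ← Md.p2_eq, f.map_p2, f.map_p2, huv]
  · apply h1
    show f (Md.i1 u.c3) = f (Md.i1 v.c3)
    rw [← Md.p3_eq, ← Md.p3_eq, f.map_p3, f.map_p3, huv]

/-- Existence of a completion which is an injective hull. -/
theorem exists_completion_hull (A : Type u) [CommLBimonoid A] (hA : InVariety theEqs A) :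
    ∃ (B : Type u) (_ : CommLBimonoid B) (e : BHom A B), IsComplDMCompletion e ∧
      IsInjectiveHull theEqs e := by
  haveI : InV A := ⟨hA⟩
  obtain ⟨E₁, inst₁, j₁, hj₁, hd₁⟩ := exists_completion (D1 A)
  obtain ⟨E₂, inst₂, j₂, hj₂, hd₂⟩ := exists_completion (D2 A)
  exact ⟨Md E₁ E₂, inferInstance, homOf j₁ j₂,
    isComplDMCompletion_homOf j₁ j₂ hj₁ hj₂ hd₁ hd₂,
    isInjectiveHull_homOf j₁ j₂ hj₁ hj₂ hd₁ hd₂⟩

end Completion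

section BDL

variable {A : Type u} [CommLBimonoid A]

/-- the distributive lattice structure -/
@[reducible] def bdlDistrib (h : IsBDL A) : DistribLattice A :=
  DistribLattice.ofInfSupLe (fun x y z => by
    have := CommLBimonoid.mul_sup_distrib x y z
    rw [h.1, h.1, h.1] at this
    exact this.le)

/-- the bounds -/
@[reducible] def bdlBounded (h : IsBDL A) : BoundedOrder A where
  top := 1
  le_top := h.2.2.1
  bot := 0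
  bot_le := h.2.2.2

theorem bdl_inVariety (h : IsBDL A) : InVariety theEqs A := by
  classical
  letI inst1 : DistribLattice A := bdlDistrib h
  letI inst2 : BoundedOrder A := bdlBounded h
  have key : ∀ (P : Spec A) (v : ℕ → A) (t : Tm), (if t.eval v ∈ P.1 then B2.top else B2.bot) =
      t.eval (fun n => if v n ∈ P.1 then B2.top else B2.bot) := by
    intro P v t
    have hinf : ∀ x y : A, x ⊓ y ∈ P.1 ↔ x ∈ P.1 ∧ y ∈ P.1 := P.inf_mem_iff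
    have hsup : ∀ x y : A, x ⊔ y ∈ P.1 ↔ x ∈ P.1 ∨ y ∈ P.1 := P.sup_mem_iff
    have caseinf : ∀ x y : A, (if x ⊓ y ∈ P.1 then B2.top else B2.bot) =
        (if x ∈ P.1 then B2.top else B2.bot) ⊓ (if y ∈ P.1 then B2.top else B2.bot) := by
      intro x y
      by_cases h1 : x ∈ P.1 <;> by_cases h2 : y ∈ P.1 <;> simp only [hinf, h1, h2] <;> rfl
    have casesup : ∀ x y : A, (if x ⊔ y ∈ P.1 then B2.top else B2.bot) =
        (if x ∈ P.1 then B2.top else B2.bot) ⊔ (if y ∈ P.1 then B2.top else B2.bot) := by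
      intro x y
      by_cases h1 : x ∈ P.1 <;> by_cases h2 : y ∈ P.1 <;> simp only [hsup, h1, h2] <;> rfl
    induction t with
    | var n => rfl
    | one =>
      have : (1 : A) ∈ P.1 := P.top_mem
      simp only [Tm.eval, this]
      rfl
    | zero =>
      have : (0 : A) ∉ P.1 := P.bot_not_mem
      simp only [Tm.eval, this]
      rfl
    | mul s t hs ht =>
      simp only [Tm.eval, ← hs, ← ht, h.1]
      exact caseinf _ _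
    | add s t hs ht =>
      simp only [Tm.eval, ← hs, ← ht, h.2.1]
      exact casesup _ _
    | inf s t hs ht =>
      simp only [Tm.eval, ← hs, ← ht]
      exact caseinf _ _
    | sup s t hs ht =>
      simp only [Tm.eval, ← hs, ← ht]
      exact casesup _ _
  have sep : ∀ x y : A, (∀ P : Spec A, x ∈ P.1 → y ∈ P.1) → x ≤ y := by
    intro x y hxy
    by_contra hle
    obtain ⟨P, h1, h2⟩ := exists_spec hle
    exact h2 (hxy P h1)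
  intro p hp v
  have hP : ∀ P : Spec A, p.1.eval v ∈ P.1 ↔ p.2.eval v ∈ P.1 := by
    intro P
    have h1 := key P v p.1
    have h2 := key P v p.2
    rw [hp.1] at h1
    rw [← h1] at h2
    by_cases ha : p.1.eval v ∈ P.1 <;> by_cases hb : p.2.eval v ∈ P.1 <;>
      simp only [ha, hb, if_true, if_false] at h2 ⊢
    · exact absurd h2 (by decide)
    · exact absurd h2 (by decide)
  exact le_antisymm (sep _ _ fun P => (hP P).1) (sep _ _ fun P => (hP P).2)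

/-- an algebra in the variety which is not a bounded distributive lattice -/
theorem exists_not_bdl : ∃ (A : Type u) (_ : CommLBimonoid A), InVariety theEqs A ∧ ¬ IsBDL A := by
  refine ⟨Md (Set PUnit.{u + 1}) (Set PUnit.{u + 1}), inferInstance, InV.out, ?_⟩
  intro h
  have h1 := h.2.2.1 (T2 : Md (Set PUnit.{u + 1}) (Set PUnit.{u + 1}))
  rw [Md.T2_eq] at h1
  have h2 : (⊤ : Set PUnit.{u + 1}) ≤ ⊥ := h1.2.2.2
  exact h2 (Set.mem_univ PUnit.unit)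

end BDL

end Pool.Agent.Lib.MP_edd14c_al
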