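import Mathlib

/-!
# Lattice theoretic input: Sikorski's extension theorem for bounded distributive lattices and
the Boolean completion of a bounded distributive lattice
-/

universe u

namespace Pool.Agent.Lib.MP_edd14c_al

section Extension

variable {L L' E : Type u} [DistribLattice L] [BoundedOrder L] [DistribLattice L']
  [BoundedOrder L'] [CompleteBooleanAlgebra E]

/-- partial solutions: meet preserving extensions -/
def MeetExt (i : BoundedLatticeHom L L') (f : BoundedLatticeHom L E) : Set (L' → E) :=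
  {g | g ⊤ = ⊤ ∧ (∀ x y, g (x ⊓ y) = g x ⊓ g y) ∧ ∀ a, g (i a) = f a}

theorem MeetExt.mono {i : BoundedLatticeHom L L'} {f : BoundedLatticeHom L E} {g : L' → E}
    (hg : g ∈ MeetExt i f) {x y : L'} (h : x ≤ y) : g x ≤ g y := by
  have := hg.2.1 x y
  rw [inf_eq_left.2 h] at this
  rw [this]
  exact inf_le_right

theorem meetExt_nonempty (i : BoundedLatticeHom L L') (hi : Function.Injective i)
    (f : BoundedLatticeHom L E) :
    (fun x => ⨆ a : {a : L // i a ≤ x}, f a) ∈ MeetExt i f := by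
  have hle : ∀ a b : L, i a ≤ i b → a ≤ b := by
    intro a b h
    have : i (a ⊔ b) = i b := by rw [map_sup, sup_eq_right.2 h]
    exact sup_eq_right.1 (hi this)
  have hmono : ∀ a b : L, a ≤ b → f a ≤ f b := fun a b h => OrderHomClass.mono f h
  refine ⟨?_, ?_, ?_⟩
  · apply le_antisymm le_top
    refine le_trans ?_ (le_iSup _ (⟨⊤, le_top⟩ : {a : L // i a ≤ ⊤}))
    simp
  · intro x y
    apply le_antisymm
    · apply iSup_le
      rintro ⟨a, ha⟩
      exact le_inf (le_iSup (fun a : {a : L // i a ≤ x} => f a) ⟨a, ha.trans inf_le_left⟩)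
        (le_iSup (fun a : {a : L // i a ≤ y} => f a) ⟨a, ha.trans inf_le_right⟩)
    · rw [iSup_inf_iSup]
      apply iSup_le
      rintro ⟨⟨a, ha⟩, ⟨b, hb⟩⟩
      have h1 : i (a ⊓ b) ≤ x ⊓ y := by
        rw [map_inf]
        exact inf_le_inf ha hb
      have := le_iSup (fun a : {a : L // i a ≤ x ⊓ y} => f a) ⟨a ⊓ b, h1⟩
      simpa using this
  · intro b
    apply le_antisymm
    · apply iSup_le
      rintro ⟨a, ha⟩
      exact hmono _ _ (hle _ _ ha)
    · exact le_iSup (fun a : {a : L // i a ≤ i b} => f a) ⟨b, le_rfl⟩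

theorem exists_maximal_meetExt (i : BoundedLatticeHom L L') (hi : Function.Injective i)
    (f : BoundedLatticeHom L E) : ∃ g, Maximal (· ∈ MeetExt i f) g := by
  obtain ⟨m, _, hm⟩ := zorn_le_nonempty₀ (MeetExt i f) (by
    intro c hc hchain y hy
    refine ⟨fun x => ⨆ g : c, (g : L' → E) x, ⟨?_, ?_, ?_⟩, ?_⟩
    · apply le_antisymm le_top
      refine le_trans ?_ (le_iSup (fun g : c => (g : L' → E) ⊤) ⟨y, hy⟩)
      exact ((hc hy).1).ge
    · intro x z
      apply le_antisymm
      · apply iSup_le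
        rintro ⟨g, hg⟩
        have h1 := (hc hg).2.1 x z
        show g (x ⊓ z) ≤ _
        rw [h1]
        exact inf_le_inf (le_iSup (fun g : c => (g : L' → E) x) ⟨g, hg⟩)
          (le_iSup (fun g : c => (g : L' → E) z) ⟨g, hg⟩)
      · rw [iSup_inf_iSup]
        apply iSup_le
        rintro ⟨⟨g, hg⟩, ⟨h, hh⟩⟩
        show g x ⊓ h z ≤ _
        rcases hchain.total hg hh with hgh | hgh
        · refine le_trans (inf_le_inf (hgh x) le_rfl) ?_
          rw [← (hc hh).2.1 x z]
          exact le_iSup (fun g : c => (g : L' → E) (x ⊓ z)) ⟨h, hh⟩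
        · refine le_trans (inf_le_inf le_rfl (hgh z)) ?_
          rw [← (hc hg).2.1 x z]
          exact le_iSup (fun g : c => (g : L' → E) (x ⊓ z)) ⟨g, hg⟩
    · intro a
      apply le_antisymm
      · apply iSup_le
        rintro ⟨g, hg⟩
        exact ((hc hg).2.2 a).le
      · refine le_trans ?_ (le_iSup (fun g : c => (g : L' → E) (i a)) ⟨y, hy⟩)
        exact ((hc hy).2.2 a).ge
    · intro g hg x
      exact le_iSup (fun g : c => (g : L' → E) x) ⟨g, hg⟩)
    _ (meetExt_nonempty i hi f)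
  exact ⟨m, hm⟩

/-- **Sikorski's extension theorem** for bounded distributive lattices: complete Boolean algebras
are injective. -/
theorem sikorski (i : BoundedLatticeHom L L') (hi : Function.Injective i)
    (f : BoundedLatticeHom L E) : ∃ g : BoundedLatticeHom L' E, ∀ a, g (i a) = f a := by
  obtain ⟨g, hg⟩ := exists_maximal_meetExt i hi f
  have hgm := hg.prop
  have gmono : ∀ {x y : L'}, x ≤ y → g x ≤ g y := fun h => MeetExt.mono hgm h
  -- the key estimate
  have key : ∀ x : L', (⨅ p : {p : L' × L // p.1 ⊓ x ≤ i p.2}, ((g p.1.1)ᶜ ⊔ f p.1.2)) ≤ g x := by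
    intro x
    set e := ⨅ p : {p : L' × L // p.1 ⊓ x ≤ i p.2}, ((g p.1.1)ᶜ ⊔ f p.1.2) with he
    have hle : ∀ (w : L') (a : L), w ⊓ x ≤ i a → g w ⊓ e ≤ f a := by
      intro w a h
      have h1 : e ≤ (g w)ᶜ ⊔ f a := iInf_le _ (⟨(w, a), h⟩ : {p : L' × L // p.1 ⊓ x ≤ i p.2})
      calc g w ⊓ e ≤ g w ⊓ ((g w)ᶜ ⊔ f a) := inf_le_inf le_rfl h1
        _ = g w ⊓ f a := by rw [inf_sup_left, inf_compl_self, bot_sup_eq]
        _ ≤ f a := inf_le_right
    let g' : L' → E := fun z => g z ⊔ ⨆ w : {w : L' // w ⊓ x ≤ z}, g w ⊓ e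
    have hg'mono : ∀ {z z' : L'}, z ≤ z' → g' z ≤ g' z' := by
      intro z z' h
      refine sup_le_sup (gmono h) ?_
      apply iSup_le
      rintro ⟨w, hw⟩
      exact le_iSup (fun w : {w : L' // w ⊓ x ≤ z'} => g w ⊓ e) ⟨w, hw.trans h⟩
    have hsup : ∀ {z w : L'}, w ⊓ x ≤ z → g w ⊓ e ≤ g' z := by
      intro z w hw
      exact le_sup_of_le_right (le_iSup (fun w : {w : L' // w ⊓ x ≤ z} => g w ⊓ e) ⟨w, hw⟩)
    have hg' : g' ∈ MeetExt i f := by
      refine ⟨?_, ?_, ?_⟩
      · show g ⊤ ⊔ _ = ⊤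
        rw [hgm.1, top_sup_eq]
      · intro z z'
        apply le_antisymm (le_inf (hg'mono inf_le_left) (hg'mono inf_le_right))
        show (g z ⊔ ⨆ w : {w : L' // w ⊓ x ≤ z}, g w ⊓ e) ⊓
          (g z' ⊔ ⨆ w : {w : L' // w ⊓ x ≤ z'}, g w ⊓ e) ≤ g' (z ⊓ z')
        rw [inf_sup_left, inf_sup_right, inf_sup_right, iSup_inf_iSup]
        refine sup_le (sup_le ?_ ?_) (sup_le ?_ ?_)
        · rw [← hgm.2.1]
          exact le_sup_left
        · rw [iSup_inf_eq]
          apply iSup_le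
          rintro ⟨w, hw⟩
          have : g w ⊓ e ⊓ g z' = g (w ⊓ z') ⊓ e := by rw [hgm.2.1, inf_right_comm]
          show g w ⊓ e ⊓ g z' ≤ _
          rw [this]
          apply hsup
          refine le_inf ?_ ?_
          · exact (inf_le_inf inf_le_left le_rfl).trans hw
          · exact inf_le_left.trans inf_le_right
        · rw [inf_iSup_eq]
          apply iSup_le
          rintro ⟨w, hw⟩
          have : g z ⊓ (g w ⊓ e) = g (z ⊓ w) ⊓ e := by rw [hgm.2.1, inf_assoc]
          show g z ⊓ (g w ⊓ e) ≤ _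
          rw [this]
          apply hsup
          refine le_inf ?_ ?_
          · exact inf_le_left.trans inf_le_left
          · exact (inf_le_inf inf_le_right le_rfl).trans hw
        · apply iSup_le
          rintro ⟨⟨w, hw⟩, ⟨w', hw'⟩⟩
          have : g w ⊓ e ⊓ (g w' ⊓ e) = g (w ⊓ w') ⊓ e := by
            rw [hgm.2.1, inf_inf_inf_comm, inf_idem]
          show g w ⊓ e ⊓ (g w' ⊓ e) ≤ _
          rw [this]
          apply hsup
          refine le_inf ?_ ?_
          · exact (inf_le_inf inf_le_left le_rfl).trans hw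
          · exact (inf_le_inf inf_le_right le_rfl).trans hw'
      · intro a
        show g (i a) ⊔ _ = f a
        rw [hgm.2.2]
        apply le_antisymm
        · refine sup_le le_rfl (iSup_le ?_)
          rintro ⟨w, hw⟩
          exact hle w a hw
        · exact le_sup_left
    have hge : g ≤ g' := fun z => le_sup_left
    have hle' : g' ≤ g := hg.le_of_ge hg' hge
    refine le_trans ?_ (hle' x)
    have : g (⊤ : L') ⊓ e ≤ g' x := hsup (by simp)
    rwa [hgm.1, top_inf_eq] at this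
  refine ⟨{ toFun := g
            map_sup' := ?_
            map_inf' := hgm.2.1
            map_top' := hgm.1
            map_bot' := ?_ }, hgm.2.2⟩
  · intro x y
    apply le_antisymm
    · refine le_trans ?_ (sup_le_sup (key x) (key y))
      rw [iInf_sup_iInf]
      apply le_iInf
      rintro ⟨⟨⟨w, a⟩, hwa⟩, ⟨⟨w', a'⟩, hwa'⟩⟩
      have h1 : g (x ⊔ y) ⊓ g w ⊓ g w' ≤ f a ⊔ f a' := by
        rw [← hgm.2.1, ← hgm.2.1, ← map_sup, ← hgm.2.2]
        apply gmono
        rw [map_sup, inf_assoc, inf_sup_right]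
        refine sup_le_sup ?_ ?_
        · exact le_trans (le_inf (inf_le_right.trans inf_le_left) inf_le_left) hwa
        · exact le_trans (le_inf (inf_le_right.trans inf_le_right) inf_le_left) hwa'
      show g (x ⊔ y) ≤ ((g w)ᶜ ⊔ f a) ⊔ ((g w')ᶜ ⊔ f a')
      have h2 : ((g w)ᶜ ⊔ f a) ⊔ ((g w')ᶜ ⊔ f a') = (g w ⊓ g w')ᶜ ⊔ (f a ⊔ f a') := by
        rw [compl_inf]
        exact sup_sup_sup_comm _ _ _ _
      rw [h2, sup_comm (g w ⊓ g w')ᶜ, ← himp_eq, le_himp_iff, ← inf_assoc]
      exact h1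
    · exact sup_le (gmono le_sup_left) (gmono le_sup_right)
  · show g ⊥ = ⊥
    have h1 := hgm.2.2 ⊥
    rw [map_bot, map_bot] at h1
    exact h1

end Extension

section Essential

/-- If `j : D → E` is dense, a lattice map out of `E` which is injective on `D` is injective. -/
theorem injective_of_dense {D E L : Type u} [DistribLattice D] [BoundedOrder D]
    [BooleanAlgebra E] [Lattice L] (j : BoundedLatticeHom D E)
    (dense : ∀ z : E, z ≠ ⊥ → ∃ x y : D, j x ⊓ (j y)ᶜ ≤ z ∧ j x ⊓ (j y)ᶜ ≠ ⊥)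
    (h : E → L) (hinf : ∀ x y, h (x ⊓ y) = h x ⊓ h y) (hsup : ∀ x y, h (x ⊔ y) = h x ⊔ h y)
    (hj : ∀ x y, h (j x) = h (j y) → x = y) : Function.Injective h := by
  have hmono : ∀ {x y : E}, x ≤ y → h x ≤ h y := by
    intro x y hxy
    have := hinf x y
    rw [inf_eq_left.2 hxy] at this
    rw [this]
    exact inf_le_right
  have key : ∀ u v : E, h u = h v → u ≤ v := by
    intro u v huv
    by_contra hle
    have hz : u ⊓ vᶜ ≠ ⊥ := by
      intro h0
      apply hle
      rwa [← sdiff_eq, sdiff_eq_bot_iff] at h0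
    obtain ⟨x, y, hxy, hne⟩ := dense _ hz
    have h1 : h (u ⊓ vᶜ) = h ⊥ := by
      rw [hinf, huv, ← hinf, inf_compl_self]
    have h2 : h (j x ⊓ (j y)ᶜ) = h ⊥ := le_antisymm (by rw [← h1]; exact hmono hxy) (hmono bot_le)
    have h3 : h (j x) = h (j (x ⊓ y)) := by
      have : j x = j (x ⊓ y) ⊔ (j x ⊓ (j y)ᶜ) := by
        rw [map_inf, ← inf_sup_left, sup_compl_eq_top, inf_top_eq]
      rw [this, hsup, h2, ← hsup, sup_bot_eq]
    have h4 := hj _ _ h3
    apply hne
    rw [h4, map_inf, inf_assoc, inf_compl_self, inf_bot_eq]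
  exact fun u v huv => le_antisymm (key u v huv) (key v u huv.symm)

end Essential

section Completion

open TopologicalSpace

variable (D : Type u) [DistribLattice D] [BoundedOrder D]

/-- The prime spectrum (prime filters) of a bounded distributive lattice. -/
def Spec : Type u :=
  {P : Set D // ⊤ ∈ P ∧ ⊥ ∉ P ∧ (∀ x y, x ⊓ y ∈ P ↔ x ∈ P ∧ y ∈ P) ∧
    ∀ x y, x ⊔ y ∈ P ↔ x ∈ P ∨ y ∈ P}

variable {D}

/-- basic sets -/
def basicSet (x y : D) : Set (Spec D) := {P | x ∈ P.1 ∧ y ∉ P.1}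

instance : TopologicalSpace (Spec D) := generateFrom {s | ∃ x y : D, s = basicSet x y}

theorem isTopologicalBasis_basicSet :
    IsTopologicalBasis {s : Set (Spec D) | ∃ x y : D, s = basicSet x y} where
  exists_subset_inter := by
    rintro _ ⟨x, y, rfl⟩ _ ⟨x', y', rfl⟩ P hP
    refine ⟨basicSet (x ⊓ x') (y ⊔ y'), ⟨_, _, rfl⟩, ?_, ?_⟩
    · have h1 := P.2.2.2.1 x x'
      have h2 := P.2.2.2.2 y y'
      exact ⟨h1.2 ⟨hP.1.1, hP.2.1⟩, fun h => (h2.1 h).elim hP.1.2 hP.2.2⟩
    · intro Q hQ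
      have h1 := Q.2.2.2.1 x x'
      have h2 := Q.2.2.2.2 y y'
      exact ⟨⟨(h1.1 hQ.1).1, fun h => hQ.2 (h2.2 (Or.inl h))⟩,
        ⟨(h1.1 hQ.1).2, fun h => hQ.2 (h2.2 (Or.inr h))⟩⟩
  sUnion_eq := by
    apply Set.eq_univ_of_forall
    intro P
    exact ⟨basicSet ⊤ ⊥, ⟨_, _, rfl⟩, P.2.1, P.2.2.1⟩
  eq_generateFrom := rfl

theorem exists_spec {x y : D} (h : ¬ x ≤ y) : ∃ P : Spec D, x ∈ P.1 ∧ y ∉ P.1 := by
  obtain ⟨J, hJ, hyJ, hdisj⟩ := DistribLattice.prime_ideal_of_disjoint_filter_ideal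
    (F := Order.PFilter.principal x) (I := Order.Ideal.principal y) (by
      rw [Set.disjoint_left]
      intro z hz hz'
      apply h
      have h1 : x ≤ z := hz
      have h2 : z ≤ y := hz'
      exact h1.trans h2)
  have hxJ : x ∉ J := by
    have := Set.disjoint_left.1 hdisj (show x ∈ (Order.PFilter.principal x : Set D) from
      (le_refl x : x ≤ x))
    exact this
  refine ⟨⟨{z | z ∉ J}, ?_, ?_, ?_, ?_⟩, hxJ, ?_⟩
  · exact fun htop => hxJ (J.lower le_top htop)
  · exact fun hbot => hbot J.bot_mem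
  · intro a b
    constructor
    · intro hab
      exact ⟨fun ha => hab (J.lower inf_le_left ha), fun hb => hab (J.lower inf_le_right hb)⟩
    · rintro ⟨ha, hb⟩ hab
      rcases hJ.mem_or_mem hab with h | h
      · exact ha h
      · exact hb h
  · intro a b
    constructor
    · intro hab
      by_contra hcon
      push Not at hcon
      have ha : a ∈ J := by
        by_contra h
        exact hcon.1 h
      have hb : b ∈ J := by
        by_contra h
        exact hcon.2 h
      exact hab (J.sup_mem ha hb)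
    · rintro (ha | hb) hab
      · exact ha (J.lower le_sup_left hab)
      · exact hb (J.lower le_sup_right hab)
  · intro hy
    exact hy (hyJ (show y ∈ Order.Ideal.principal y from (le_refl y : y ≤ y)))

/-- basic opens -/
def basicOpen (x y : D) : Opens (Spec D) :=
  ⟨basicSet x y, isTopologicalBasis_basicSet.isOpen ⟨x, y, rfl⟩⟩

theorem isCompl_basicOpen (x : D) : IsCompl (basicOpen x ⊥) (basicOpen ⊤ x) := by
  constructor
  · rw [disjoint_iff]
    ext P
    constructor
    · rintro ⟨h1, h2⟩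
      exact absurd h1.1 h2.2
    · intro h
      exact h.elim
  · rw [codisjoint_iff]
    ext P
    constructor
    · intro _
      trivial
    · intro _
      by_cases hx : x ∈ P.1
      · exact Or.inl ⟨hx, P.2.2.1⟩
      · exact Or.inr ⟨P.2.1, hx⟩

open Heyting in
noncomputable instance : CompleteBooleanAlgebra (Regular (Opens (Spec D))) :=
  { (inferInstance : BooleanAlgebra (Regular (Opens (Spec D)))) with
    sSup := fun s => Regular.toRegular (sSup ((fun a : Regular (Opens (Spec D)) => a.1) '' s))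
    isLUB_sSup := fun _ => Regular.gi.isLUB_of_u_image (isLUB_sSup _)
    sInf := fun s => Regular.toRegular (sSup ((fun a : Regular (Opens (Spec D)) => a.1) ''
      (lowerBounds s)))
    isGLB_sInf := fun _ => isLUB_lowerBounds.1 (Regular.gi.isLUB_of_u_image (isLUB_sSup _)) }

open Heyting in
/-- the embedding of `D` in the regular open algebra -/
noncomputable def jRO : BoundedLatticeHom D (Regular (Opens (Spec D))) where
  toFun x := ⟨basicOpen x ⊥, by
    have h := isCompl_basicOpen x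
    rw [Heyting.IsRegular, h.compl_eq, h.symm.compl_eq]⟩
  map_sup' x y := by
    apply Regular.coe_injective
    have h0 : (basicOpen (x ⊔ y) ⊥ : Opens (Spec D)) = basicOpen x ⊥ ⊔ basicOpen y ⊥ := by
      ext P
      constructor
      · rintro ⟨h1, h2⟩
        rcases (P.2.2.2.2 x y).1 h1 with h | h
        · exact Or.inl ⟨h, h2⟩
        · exact Or.inr ⟨h, h2⟩
      · rintro (h | h)
        · exact ⟨(P.2.2.2.2 x y).2 (Or.inl h.1), h.2⟩
        · exact ⟨(P.2.2.2.2 x y).2 (Or.inr h.1), h.2⟩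
    show (basicOpen (x ⊔ y) ⊥ : Opens (Spec D)) = (basicOpen x ⊥ ⊔ basicOpen y ⊥)ᶜᶜ
    rw [← h0]
    have h := isCompl_basicOpen (x ⊔ y)
    rw [h.compl_eq, h.symm.compl_eq]
  map_inf' x y := by
    apply Regular.coe_injective
    show (basicOpen (x ⊓ y) ⊥ : Opens (Spec D)) = basicOpen x ⊥ ⊓ basicOpen y ⊥
    ext P
    constructor
    · rintro ⟨h1, h2⟩
      exact ⟨⟨((P.2.2.2.1 x y).1 h1).1, h2⟩, ⟨((P.2.2.2.1 x y).1 h1).2, h2⟩⟩
    · rintro ⟨h1, h2⟩
      exact ⟨(P.2.2.2.1 x y).2 ⟨h1.1, h2.1⟩, h1.2⟩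
  map_top' := by
    apply Regular.coe_injective
    show (basicOpen ⊤ ⊥ : Opens (Spec D)) = ⊤
    ext P
    exact ⟨fun _ => trivial, fun _ => ⟨P.2.1, P.2.2.1⟩⟩
  map_bot' := by
    apply Regular.coe_injective
    show (basicOpen ⊥ ⊥ : Opens (Spec D)) = ⊥
    ext P
    exact ⟨fun h => absurd h.1 h.2, fun h => h.elim⟩

open Heyting in
theorem jRO_inf_compl (x y : D) :
    ((jRO x ⊓ (jRO y)ᶜ : Regular (Opens (Spec D))) : Opens (Spec D)) = basicOpen x y := by
  rw [Regular.coe_inf, Regular.coe_compl]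
  show (basicOpen x ⊥ : Opens (Spec D)) ⊓ (basicOpen y ⊥)ᶜ = basicOpen x y
  rw [(isCompl_basicOpen y).compl_eq]
  ext P
  constructor
  · rintro ⟨h1, h2⟩
    exact ⟨h1.1, h2.2⟩
  · rintro ⟨h1, h2⟩
    exact ⟨⟨h1, P.2.2.1⟩, ⟨P.2.1, h2⟩⟩

variable (D)

/-- Every bounded distributive lattice embeds densely in a complete Boolean algebra. -/
theorem exists_completion : ∃ (E : Type u) (_ : CompleteBooleanAlgebra E)
    (j : BoundedLatticeHom D E), Function.Injective j ∧
      ∀ z : E, IsLUB {w | w ≤ z ∧ ∃ x y : D, w = j x ⊓ (j y)ᶜ} z := by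
  refine ⟨Heyting.Regular (Opens (Spec D)), inferInstance, jRO, ?_, ?_⟩
  · have key : ∀ x y : D, jRO x ≤ jRO y → x ≤ y := by
      intro x y hxy
      by_contra h
      obtain ⟨P, h1, h2⟩ := exists_spec h
      have h3 : (jRO x : Heyting.Regular (Opens (Spec D))).1 ≤ (jRO y).1 := hxy
      have h4 : P ∈ basicOpen y ⊥ := h3 (show P ∈ basicOpen x ⊥ from ⟨h1, P.2.2.1⟩)
      exact h2 h4.1
    intro x y hxy
    exact le_antisymm (key x y hxy.le) (key y x hxy.ge)
  · intro z
    refine ⟨fun w hw => hw.1, ?_⟩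
    intro u hu
    show z.1 ≤ u.1
    intro P hP
    obtain ⟨s, ⟨x, y, rfl⟩, hPs, hsz⟩ :=
      isTopologicalBasis_basicSet.exists_subset_of_mem_open (show P ∈ (z.1 : Set (Spec D)) from hP)
        z.1.2
    have h1 : jRO x ⊓ (jRO y)ᶜ ≤ z := by
      show ((jRO x ⊓ (jRO y)ᶜ : Heyting.Regular (Opens (Spec D))) : Opens (Spec D)) ≤ z.1
      rw [jRO_inf_compl]
      exact hsz
    have h2 : jRO x ⊓ (jRO y)ᶜ ≤ u := hu ⟨h1, x, y, rfl⟩
    have h3 : ((jRO x ⊓ (jRO y)ᶜ : Heyting.Regular (Opens (Spec D))) : Opens (Spec D)) ≤ u.1 := h2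
    rw [jRO_inf_compl] at h3
    exact h3 hPs

end Completion

end Pool.Agent.Lib.MP_edd14c_al
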