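import Pool.Agent.Lib.MP_edd14c_al.Unique
import Pool.Agent.Lib.MP_edd14c_al.Sikorski

/-!
# The two generating algebras and the algebras `Md E₁ E₂`
-/

set_option linter.unusedSectionVars false
set_option linter.unusedSimpArgs false
set_option linter.unnecessarySeqFocus false

universe u

namespace Pool.Agent.Lib.MP_edd14c_al

/-! ### The two-element algebra -/

/-- the two-element bounded distributive lattice -/
inductive B2 : Type
  | bot | top
deriving DecidableEq, Fintype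

namespace B2

def rk : B2 → ℕ
  | bot => 0
  | top => 1

def sup : B2 → B2 → B2
  | bot, y => y
  | top, _ => top

def inf : B2 → B2 → B2
  | bot, _ => bot
  | top, y => y

instance : Lattice B2 where
  le x y := x.rk ≤ y.rk
  le_refl _ := le_refl _
  le_trans _ _ _ := le_trans
  le_antisymm := by
    have : ∀ x y : B2, x.rk ≤ y.rk → y.rk ≤ x.rk → x = y := by decide
    exact this
  sup := sup
  inf := inf
  le_sup_left := by
    have : ∀ x y : B2, x.rk ≤ (sup x y).rk := by decide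
    exact this
  le_sup_right := by
    have : ∀ x y : B2, y.rk ≤ (sup x y).rk := by decide
    exact this
  sup_le := by
    have : ∀ x y z : B2, x.rk ≤ z.rk → y.rk ≤ z.rk → (sup x y).rk ≤ z.rk := by decide
    exact this
  inf_le_left := by
    have : ∀ x y : B2, (inf x y).rk ≤ x.rk := by decide
    exact this
  inf_le_right := by
    have : ∀ x y : B2, (inf x y).rk ≤ y.rk := by decide
    exact this
  le_inf := by
    have : ∀ x y z : B2, x.rk ≤ y.rk → x.rk ≤ z.rk → x.rk ≤ (inf y z).rk := by decide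
    exact this

instance (x y : B2) : Decidable (x ≤ y) := inferInstanceAs (Decidable (x.rk ≤ y.rk))

instance : Zero B2 := ⟨bot⟩
instance : Add B2 := ⟨sup⟩

instance : CommLBimonoid B2 where
  mul := inf
  mul_assoc := by
    have : ∀ x y z : B2, inf (inf x y) z = inf x (inf y z) := by decide
    exact this
  one := top
  one_mul := by
    have : ∀ x : B2, inf top x = x := by decide
    exact this
  mul_one := by
    have : ∀ x : B2, inf x top = x := by decide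
    exact this
  mul_comm := by
    have : ∀ x y : B2, inf x y = inf y x := by decide
    exact this
  add := sup
  add_assoc := by
    have : ∀ x y z : B2, sup (sup x y) z = sup x (sup y z) := by decide
    exact this
  zero := bot
  zero_add := by
    have : ∀ x : B2, sup bot x = x := by decide
    exact this
  add_zero := by
    have : ∀ x : B2, sup x bot = x := by decide
    exact this
  add_comm := by
    have : ∀ x y : B2, sup x y = sup y x := by decide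
    exact this
  nsmul := nsmulRec
  mul_sup_distrib := by
    have : ∀ x y z : B2, inf x (sup y z) = sup (inf x y) (inf x z) := by decide
    exact this
  add_inf_distrib := by
    have : ∀ x y z : B2, sup x (inf y z) = inf (sup x y) (sup x z) := by decide
    exact this
  hemidistrib := by
    have : ∀ x y z : B2, (inf x (sup y z)).rk ≤ (sup (inf x y) z).rk := by decide
    exact this

end B2

/-! ### The four-element algebra -/

/-- the four-element chain `bot < one < zero < top` -/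
inductive B4 : Type
  | bot | one | zero | top
deriving DecidableEq, Fintype

namespace B4

def rk : B4 → ℕ
  | bot => 0
  | one => 1
  | zero => 2
  | top => 3

def sup : B4 → B4 → B4
  | bot, y => y
  | one, bot => one
  | one, y => y
  | zero, top => top
  | zero, _ => zero
  | top, _ => top

def inf : B4 → B4 → B4
  | bot, _ => bot
  | one, bot => bot
  | one, _ => one
  | zero, top => zero
  | zero, y => y
  | top, y => y

/-- multiplication: `bot` is absorbing, `one` is neutral, and all other products are `top` -/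
def mul : B4 → B4 → B4
  | bot, _ => bot
  | _, bot => bot
  | one, y => y
  | x, one => x
  | _, _ => top

/-- addition: `top` is absorbing, `zero` is neutral, and all other sums are `bot` -/
def add : B4 → B4 → B4
  | top, _ => top
  | _, top => top
  | zero, y => y
  | x, zero => x
  | _, _ => bot

instance : Lattice B4 where
  le x y := x.rk ≤ y.rk
  le_refl _ := le_refl _
  le_trans _ _ _ := le_trans
  le_antisymm := by
    have : ∀ x y : B4, x.rk ≤ y.rk → y.rk ≤ x.rk → x = y := by decide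
    exact this
  sup := sup
  inf := inf
  le_sup_left := by
    have : ∀ x y : B4, x.rk ≤ (sup x y).rk := by decide
    exact this
  le_sup_right := by
    have : ∀ x y : B4, y.rk ≤ (sup x y).rk := by decide
    exact this
  sup_le := by
    have : ∀ x y z : B4, x.rk ≤ z.rk → y.rk ≤ z.rk → (sup x y).rk ≤ z.rk := by decide
    exact this
  inf_le_left := by
    have : ∀ x y : B4, (inf x y).rk ≤ x.rk := by decide
    exact this
  inf_le_right := by
    have : ∀ x y : B4, (inf x y).rk ≤ y.rk := by decide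
    exact this
  le_inf := by
    have : ∀ x y z : B4, x.rk ≤ y.rk → x.rk ≤ z.rk → x.rk ≤ (inf y z).rk := by decide
    exact this

instance (x y : B4) : Decidable (x ≤ y) := inferInstanceAs (Decidable (x.rk ≤ y.rk))

instance : Zero B4 := ⟨zero⟩
instance : Add B4 := ⟨add⟩

instance : CommLBimonoid B4 where
  mul := mul
  mul_assoc := by
    have : ∀ x y z : B4, mul (mul x y) z = mul x (mul y z) := by decide
    exact this
  one := one
  one_mul := by
    have : ∀ x : B4, mul one x = x := by decide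
    exact this
  mul_one := by
    have : ∀ x : B4, mul x one = x := by decide
    exact this
  mul_comm := by
    have : ∀ x y : B4, mul x y = mul y x := by decide
    exact this
  add := add
  add_assoc := by
    have : ∀ x y z : B4, add (add x y) z = add x (add y z) := by decide
    exact this
  zero := zero
  zero_add := by
    have : ∀ x : B4, add zero x = x := by decide
    exact this
  add_zero := by
    have : ∀ x : B4, add x zero = x := by decide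
    exact this
  add_comm := by
    have : ∀ x y : B4, add x y = add y x := by decide
    exact this
  nsmul := nsmulRec
  mul_sup_distrib := by
    have : ∀ x y z : B4, mul x (sup y z) = sup (mul x y) (mul x z) := by decide
    exact this
  add_inf_distrib := by
    have : ∀ x y z : B4, add x (inf y z) = inf (add x y) (add x z) := by decide
    exact this
  hemidistrib := by
    have : ∀ x y z : B4, (mul x (add y z)).rk ≤ (add (mul x y) z).rk := by decide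
    exact this

end B4

/-- The equations valid in `B2` and in `B4`. -/
def theEqs : Set (Tm × Tm) :=
  {p | (∀ v : ℕ → B2, p.1.eval v = p.2.eval v) ∧ ∀ v : ℕ → B4, p.1.eval v = p.2.eval v}

/-- The variety generated by `B2` and `B4`. -/
class InV (A : Type u) [CommLBimonoid A] : Prop where
  out : InVariety theEqs A

/-! ### The algebras `Md E₁ E₂` -/

/-- triples `c3 ≤ c2 ≤ c1` in `E₂` together with an element of `E₁` -/
@[ext]
structure Md (E₁ E₂ : Type u) [Lattice E₁] [Lattice E₂] where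
  c0 : E₁
  c1 : E₂
  c2 : E₂
  c3 : E₂
  h21 : c2 ≤ c1
  h32 : c3 ≤ c2

namespace Md

variable {E₁ E₂ : Type u} [DistribLattice E₁] [DistribLattice E₂] [BoundedOrder E₁]
  [BoundedOrder E₂]

instance : Lattice (Md E₁ E₂) where
  le u v := u.c0 ≤ v.c0 ∧ u.c1 ≤ v.c1 ∧ u.c2 ≤ v.c2 ∧ u.c3 ≤ v.c3
  le_refl u := ⟨le_rfl, le_rfl, le_rfl, le_rfl⟩
  le_trans u v w h h' := ⟨h.1.trans h'.1, h.2.1.trans h'.2.1, h.2.2.1.trans h'.2.2.1,
    h.2.2.2.trans h'.2.2.2⟩
  le_antisymm u v h h' := Md.ext (le_antisymm h.1 h'.1) (le_antisymm h.2.1 h'.2.1)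
    (le_antisymm h.2.2.1 h'.2.2.1) (le_antisymm h.2.2.2 h'.2.2.2)
  sup u v := ⟨u.c0 ⊔ v.c0, u.c1 ⊔ v.c1, u.c2 ⊔ v.c2, u.c3 ⊔ v.c3, sup_le_sup u.h21 v.h21,
    sup_le_sup u.h32 v.h32⟩
  inf u v := ⟨u.c0 ⊓ v.c0, u.c1 ⊓ v.c1, u.c2 ⊓ v.c2, u.c3 ⊓ v.c3, inf_le_inf u.h21 v.h21,
    inf_le_inf u.h32 v.h32⟩
  le_sup_left u v := ⟨le_sup_left, le_sup_left, le_sup_left, le_sup_left⟩
  le_sup_right u v := ⟨le_sup_right, le_sup_right, le_sup_right, le_sup_right⟩
  sup_le u v w h h' := ⟨sup_le h.1 h'.1, sup_le h.2.1 h'.2.1, sup_le h.2.2.1 h'.2.2.1,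
    sup_le h.2.2.2 h'.2.2.2⟩
  inf_le_left u v := ⟨inf_le_left, inf_le_left, inf_le_left, inf_le_left⟩
  inf_le_right u v := ⟨inf_le_right, inf_le_right, inf_le_right, inf_le_right⟩
  le_inf u v w h h' := ⟨le_inf h.1 h'.1, le_inf h.2.1 h'.2.1, le_inf h.2.2.1 h'.2.2.1,
    le_inf h.2.2.2 h'.2.2.2⟩

/-- multiplication -/
def mul (u v : Md E₁ E₂) : Md E₁ E₂ where
  c0 := u.c0 ⊓ v.c0
  c1 := u.c1 ⊓ v.c1
  c2 := (u.c2 ⊓ v.c1) ⊔ (u.c1 ⊓ v.c2)
  c3 := (u.c2 ⊓ v.c2) ⊔ ((u.c3 ⊓ v.c1) ⊔ (u.c1 ⊓ v.c3))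
  h21 := sup_le (inf_le_inf u.h21 le_rfl) (inf_le_inf le_rfl v.h21)
  h32 := sup_le (le_sup_of_le_left (inf_le_inf le_rfl v.h21))
    (sup_le_sup (inf_le_inf u.h32 le_rfl) (inf_le_inf le_rfl v.h32))

/-- addition -/
def add (u v : Md E₁ E₂) : Md E₁ E₂ where
  c0 := u.c0 ⊔ v.c0
  c1 := ((u.c1 ⊓ v.c2) ⊔ (u.c2 ⊓ v.c1)) ⊔ (u.c3 ⊔ v.c3)
  c2 := (u.c2 ⊓ v.c2) ⊔ (u.c3 ⊔ v.c3)
  c3 := u.c3 ⊔ v.c3
  h21 := sup_le_sup (le_sup_of_le_left (inf_le_inf u.h21 le_rfl)) le_rfl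
  h32 := le_sup_right

def one : Md E₁ E₂ := ⟨⊤, ⊤, ⊥, ⊥, bot_le, le_rfl⟩
def zero : Md E₁ E₂ := ⟨⊥, ⊤, ⊤, ⊥, le_rfl, bot_le⟩

instance : Mul (Md E₁ E₂) := ⟨mul⟩
instance : Add (Md E₁ E₂) := ⟨add⟩
instance : One (Md E₁ E₂) := ⟨one⟩
instance : Zero (Md E₁ E₂) := ⟨zero⟩

open Classical in
/-- evaluation at a point of the spectrum of `E₁` -/
noncomputable def ev1 (P : Spec E₁) (u : Md E₁ E₂) : B2 :=
  if u.c0 ∈ P.1 then B2.top else B2.bot

open Classical in
/-- evaluation at a point of the spectrum of `E₂` -/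
noncomputable def ev2 (P : Spec E₂) (u : Md E₁ E₂) : B4 :=
  if u.c3 ∈ P.1 then B4.top else if u.c2 ∈ P.1 then B4.zero else
    if u.c1 ∈ P.1 then B4.one else B4.bot

end Md

namespace Spec

variable {D : Type u} [DistribLattice D] [BoundedOrder D] (P : Spec D)

theorem inf_mem_iff (x y : D) : x ⊓ y ∈ P.1 ↔ x ∈ P.1 ∧ y ∈ P.1 := P.2.2.2.1 x y
theorem sup_mem_iff (x y : D) : x ⊔ y ∈ P.1 ↔ x ∈ P.1 ∨ y ∈ P.1 := P.2.2.2.2 x y
theorem top_mem : (⊤ : D) ∈ P.1 := P.2.1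
theorem bot_not_mem : (⊥ : D) ∉ P.1 := P.2.2.1
theorem mem_of_le {x y : D} (h : x ≤ y) (hx : x ∈ P.1) : y ∈ P.1 := by
  have := P.sup_mem_iff x y
  rw [sup_eq_right.2 h] at this
  exact this.2 (Or.inl hx)

end Spec

namespace Md

variable {E₁ E₂ : Type u} [DistribLattice E₁] [DistribLattice E₂] [BoundedOrder E₁]
  [BoundedOrder E₂]

theorem ev1_mul (P : Spec E₁) (u v : Md E₁ E₂) : ev1 P (u * v) = ev1 P u * ev1 P v := by
  have h : (u * v).c0 ∈ P.1 ↔ _ := P.inf_mem_iff u.c0 v.c0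
  unfold ev1
  by_cases h1 : u.c0 ∈ P.1 <;> by_cases h2 : v.c0 ∈ P.1 <;> simp only [h, h1, h2] <;> rfl

theorem ev1_inf (P : Spec E₁) (u v : Md E₁ E₂) : ev1 P (u ⊓ v) = ev1 P u ⊓ ev1 P v := by
  have h : (u ⊓ v).c0 ∈ P.1 ↔ _ := P.inf_mem_iff u.c0 v.c0
  unfold ev1
  by_cases h1 : u.c0 ∈ P.1 <;> by_cases h2 : v.c0 ∈ P.1 <;> simp only [h, h1, h2] <;> rfl

theorem ev1_add (P : Spec E₁) (u v : Md E₁ E₂) : ev1 P (u + v) = ev1 P u + ev1 P v := by
  have h : (u + v).c0 ∈ P.1 ↔ _ := P.sup_mem_iff u.c0 v.c0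
  unfold ev1
  by_cases h1 : u.c0 ∈ P.1 <;> by_cases h2 : v.c0 ∈ P.1 <;> simp only [h, h1, h2] <;> rfl

theorem ev1_sup (P : Spec E₁) (u v : Md E₁ E₂) : ev1 P (u ⊔ v) = ev1 P u ⊔ ev1 P v := by
  have h : (u ⊔ v).c0 ∈ P.1 ↔ _ := P.sup_mem_iff u.c0 v.c0
  unfold ev1
  by_cases h1 : u.c0 ∈ P.1 <;> by_cases h2 : v.c0 ∈ P.1 <;> simp only [h, h1, h2] <;> rfl

theorem ev1_one (P : Spec E₁) : ev1 P (1 : Md E₁ E₂) = 1 := by
  have h : (1 : Md E₁ E₂).c0 ∈ P.1 := P.top_mem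
  unfold ev1
  simp only [h] <;> rfl

theorem ev1_zero (P : Spec E₁) : ev1 P (0 : Md E₁ E₂) = 0 := by
  have h : (0 : Md E₁ E₂).c0 ∉ P.1 := P.bot_not_mem
  unfold ev1
  simp only [h] <;> rfl

/-- case distinction for the value at a point of the second spectrum -/
theorem ev2_cases (P : Spec E₂) (u : Md E₁ E₂) :
    (u.c1 ∉ P.1 ∧ u.c2 ∉ P.1 ∧ u.c3 ∉ P.1) ∨ (u.c1 ∈ P.1 ∧ u.c2 ∉ P.1 ∧ u.c3 ∉ P.1) ∨
      (u.c1 ∈ P.1 ∧ u.c2 ∈ P.1 ∧ u.c3 ∉ P.1) ∨ (u.c1 ∈ P.1 ∧ u.c2 ∈ P.1 ∧ u.c3 ∈ P.1) := by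
  have h1 := fun h => P.mem_of_le u.h21 h
  have h2 := fun h => P.mem_of_le u.h32 h
  tauto

theorem ev2_mul (P : Spec E₂) (u v : Md E₁ E₂) : ev2 P (u * v) = ev2 P u * ev2 P v := by
  have h1 : (u * v).c1 ∈ P.1 ↔ u.c1 ∈ P.1 ∧ v.c1 ∈ P.1 := P.inf_mem_iff u.c1 v.c1
  have h2 : (u * v).c2 ∈ P.1 ↔ (u.c2 ∈ P.1 ∧ v.c1 ∈ P.1) ∨ (u.c1 ∈ P.1 ∧ v.c2 ∈ P.1) := by
    show (u.c2 ⊓ v.c1) ⊔ (u.c1 ⊓ v.c2) ∈ P.1 ↔ _
    rw [P.sup_mem_iff, P.inf_mem_iff, P.inf_mem_iff]
  have h3 : (u * v).c3 ∈ P.1 ↔ (u.c2 ∈ P.1 ∧ v.c2 ∈ P.1) ∨ ((u.c3 ∈ P.1 ∧ v.c1 ∈ P.1) ∨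
      (u.c1 ∈ P.1 ∧ v.c3 ∈ P.1)) := by
    show (u.c2 ⊓ v.c2) ⊔ ((u.c3 ⊓ v.c1) ⊔ (u.c1 ⊓ v.c3)) ∈ P.1 ↔ _
    rw [P.sup_mem_iff, P.sup_mem_iff, P.inf_mem_iff, P.inf_mem_iff, P.inf_mem_iff]
  unfold ev2
  rcases ev2_cases P u with ⟨a, b, c⟩ | ⟨a, b, c⟩ | ⟨a, b, c⟩ | ⟨a, b, c⟩ <;>
  rcases ev2_cases P v with ⟨a', b', c'⟩ | ⟨a', b', c'⟩ | ⟨a', b', c'⟩ | ⟨a', b', c'⟩ <;>
  simp only [h1, h2, h3, a, b, c, a', b', c', and_self, and_true, and_false, or_self,
    or_false, or_true, if_true, if_false] <;> rfl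

theorem ev2_add (P : Spec E₂) (u v : Md E₁ E₂) : ev2 P (u + v) = ev2 P u + ev2 P v := by
  have h1 : (u + v).c1 ∈ P.1 ↔ ((u.c1 ∈ P.1 ∧ v.c2 ∈ P.1) ∨ (u.c2 ∈ P.1 ∧ v.c1 ∈ P.1)) ∨
      (u.c3 ∈ P.1 ∨ v.c3 ∈ P.1) := by
    show ((u.c1 ⊓ v.c2) ⊔ (u.c2 ⊓ v.c1)) ⊔ (u.c3 ⊔ v.c3) ∈ P.1 ↔ _
    rw [P.sup_mem_iff, P.sup_mem_iff, P.sup_mem_iff, P.inf_mem_iff, P.inf_mem_iff]
  have h2 : (u + v).c2 ∈ P.1 ↔ (u.c2 ∈ P.1 ∧ v.c2 ∈ P.1) ∨ (u.c3 ∈ P.1 ∨ v.c3 ∈ P.1) := by
    show (u.c2 ⊓ v.c2) ⊔ (u.c3 ⊔ v.c3) ∈ P.1 ↔ _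
    rw [P.sup_mem_iff, P.sup_mem_iff, P.inf_mem_iff]
  have h3 : (u + v).c3 ∈ P.1 ↔ (u.c3 ∈ P.1 ∨ v.c3 ∈ P.1) := P.sup_mem_iff u.c3 v.c3
  unfold ev2
  rcases ev2_cases P u with ⟨a, b, c⟩ | ⟨a, b, c⟩ | ⟨a, b, c⟩ | ⟨a, b, c⟩ <;>
  rcases ev2_cases P v with ⟨a', b', c'⟩ | ⟨a', b', c'⟩ | ⟨a', b', c'⟩ | ⟨a', b', c'⟩ <;>
  simp only [h1, h2, h3, a, b, c, a', b', c', and_self, and_true, and_false, or_self,
    or_false, or_true, if_true, if_false] <;> rfl

theorem ev2_inf (P : Spec E₂) (u v : Md E₁ E₂) : ev2 P (u ⊓ v) = ev2 P u ⊓ ev2 P v := by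
  have h1 : (u ⊓ v).c1 ∈ P.1 ↔ (u.c1 ∈ P.1 ∧ v.c1 ∈ P.1) := P.inf_mem_iff u.c1 v.c1
  have h2 : (u ⊓ v).c2 ∈ P.1 ↔ (u.c2 ∈ P.1 ∧ v.c2 ∈ P.1) := P.inf_mem_iff u.c2 v.c2
  have h3 : (u ⊓ v).c3 ∈ P.1 ↔ (u.c3 ∈ P.1 ∧ v.c3 ∈ P.1) := P.inf_mem_iff u.c3 v.c3
  unfold ev2
  rcases ev2_cases P u with ⟨a, b, c⟩ | ⟨a, b, c⟩ | ⟨a, b, c⟩ | ⟨a, b, c⟩ <;>
  rcases ev2_cases P v with ⟨a', b', c'⟩ | ⟨a', b', c'⟩ | ⟨a', b', c'⟩ | ⟨a', b', c'⟩ <;>
  simp only [h1, h2, h3, a, b, c, a', b', c', and_self, and_true, and_false, or_self,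
    or_false, or_true, if_true, if_false] <;> rfl

theorem ev2_sup (P : Spec E₂) (u v : Md E₁ E₂) : ev2 P (u ⊔ v) = ev2 P u ⊔ ev2 P v := by
  have h1 : (u ⊔ v).c1 ∈ P.1 ↔ (u.c1 ∈ P.1 ∨ v.c1 ∈ P.1) := P.sup_mem_iff u.c1 v.c1
  have h2 : (u ⊔ v).c2 ∈ P.1 ↔ (u.c2 ∈ P.1 ∨ v.c2 ∈ P.1) := P.sup_mem_iff u.c2 v.c2
  have h3 : (u ⊔ v).c3 ∈ P.1 ↔ (u.c3 ∈ P.1 ∨ v.c3 ∈ P.1) := P.sup_mem_iff u.c3 v.c3
  unfold ev2
  rcases ev2_cases P u with ⟨a, b, c⟩ | ⟨a, b, c⟩ | ⟨a, b, c⟩ | ⟨a, b, c⟩ <;>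
  rcases ev2_cases P v with ⟨a', b', c'⟩ | ⟨a', b', c'⟩ | ⟨a', b', c'⟩ | ⟨a', b', c'⟩ <;>
  simp only [h1, h2, h3, a, b, c, a', b', c', and_self, and_true, and_false, or_self,
    or_false, or_true, if_true, if_false] <;> rfl

theorem ev2_one (P : Spec E₂) : ev2 P (1 : Md E₁ E₂) = 1 := by
  have h1 : (1 : Md E₁ E₂).c1 ∈ P.1 := P.top_mem
  have h2 : (1 : Md E₁ E₂).c2 ∉ P.1 := P.bot_not_mem
  have h3 : (1 : Md E₁ E₂).c3 ∉ P.1 := P.bot_not_mem
  unfold ev2
  simp only [h1, h2, h3, if_true, if_false] <;> rfl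

theorem ev2_zero (P : Spec E₂) : ev2 P (0 : Md E₁ E₂) = 0 := by
  have h1 : (0 : Md E₁ E₂).c1 ∈ P.1 := P.top_mem
  have h2 : (0 : Md E₁ E₂).c2 ∈ P.1 := P.top_mem
  have h3 : (0 : Md E₁ E₂).c3 ∉ P.1 := P.bot_not_mem
  unfold ev2
  simp only [h2, h3, if_true, if_false] <;> rfl

theorem ev_injective {u v : Md E₁ E₂} (h1 : ∀ P : Spec E₁, ev1 P u = ev1 P v)
    (h2 : ∀ P : Spec E₂, ev2 P u = ev2 P v) : u = v := by
  have sep1 : ∀ u v : Md E₁ E₂, (∀ P : Spec E₁, ev1 P u = ev1 P v) → u.c0 ≤ v.c0 := by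
    intro u v h
    by_contra hle
    obtain ⟨P, hu, hv⟩ := exists_spec hle
    have := h P
    unfold ev1 at this
    rw [if_pos hu, if_neg hv] at this
    exact B2.noConfusion this
  have sep2 : ∀ u v : Md E₁ E₂, (∀ P : Spec E₂, ev2 P u = ev2 P v) →
      u.c1 ≤ v.c1 ∧ u.c2 ≤ v.c2 ∧ u.c3 ≤ v.c3 := by
    intro u v h
    refine ⟨?_, ?_, ?_⟩
    · by_contra hle
      obtain ⟨P, hu, hv⟩ := exists_spec hle
      have := h P
      unfold ev2 at this
      rcases ev2_cases P u with ⟨a, b, c⟩ | ⟨a, b, c⟩ | ⟨a, b, c⟩ | ⟨a, b, c⟩ <;>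
      rcases ev2_cases P v with ⟨a', b', c'⟩ | ⟨a', b', c'⟩ | ⟨a', b', c'⟩ | ⟨a', b', c'⟩ <;>
      simp only [a, b, c, a', b', c', if_true, if_false] at this <;>
      first | exact a hu | exact hv a' | exact B4.noConfusion this
    · by_contra hle
      obtain ⟨P, hu, hv⟩ := exists_spec hle
      have := h P
      unfold ev2 at this
      rcases ev2_cases P u with ⟨a, b, c⟩ | ⟨a, b, c⟩ | ⟨a, b, c⟩ | ⟨a, b, c⟩ <;>
      rcases ev2_cases P v with ⟨a', b', c'⟩ | ⟨a', b', c'⟩ | ⟨a', b', c'⟩ | ⟨a', b', c'⟩ <;>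
      simp only [a, b, c, a', b', c', if_true, if_false] at this <;>
      first | exact b hu | exact hv b' | exact B4.noConfusion this
    · by_contra hle
      obtain ⟨P, hu, hv⟩ := exists_spec hle
      have := h P
      unfold ev2 at this
      rcases ev2_cases P u with ⟨a, b, c⟩ | ⟨a, b, c⟩ | ⟨a, b, c⟩ | ⟨a, b, c⟩ <;>
      rcases ev2_cases P v with ⟨a', b', c'⟩ | ⟨a', b', c'⟩ | ⟨a', b', c'⟩ | ⟨a', b', c'⟩ <;>
      simp only [a, b, c, a', b', c', if_true, if_false] at this <;>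
      first | exact c hu | exact hv c' | exact B4.noConfusion this
  have g1 := sep1 u v h1
  have g2 := sep1 v u (fun P => (h1 P).symm)
  have g3 := sep2 u v h2
  have g4 := sep2 v u (fun P => (h2 P).symm)
  exact Md.ext (le_antisymm g1 g2) (le_antisymm g3.1 g4.1) (le_antisymm g3.2.1 g4.2.1)
    (le_antisymm g3.2.2 g4.2.2)

instance instCommLBimonoid : CommLBimonoid (Md E₁ E₂) where
  mul_assoc u v w := ev_injective (fun P => by simp only [ev1_mul, mul_assoc])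
    (fun P => by simp only [ev2_mul, mul_assoc])
  one_mul u := ev_injective (fun P => by simp only [ev1_mul, ev1_one, one_mul])
    (fun P => by simp only [ev2_mul, ev2_one, one_mul])
  mul_one u := ev_injective (fun P => by simp only [ev1_mul, ev1_one, mul_one])
    (fun P => by simp only [ev2_mul, ev2_one, mul_one])
  mul_comm u v := ev_injective (fun P => by simp only [ev1_mul]; exact mul_comm _ _)
    (fun P => by simp only [ev2_mul]; exact mul_comm _ _)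
  add_assoc u v w := ev_injective (fun P => by simp only [ev1_add, add_assoc])
    (fun P => by simp only [ev2_add, add_assoc])
  zero_add u := ev_injective (fun P => by simp only [ev1_add, ev1_zero, zero_add])
    (fun P => by simp only [ev2_add, ev2_zero, zero_add])
  add_zero u := ev_injective (fun P => by simp only [ev1_add, ev1_zero, add_zero])
    (fun P => by simp only [ev2_add, ev2_zero, add_zero])
  add_comm u v := ev_injective (fun P => by simp only [ev1_add]; exact add_comm _ _)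
    (fun P => by simp only [ev2_add]; exact add_comm _ _)
  nsmul := nsmulRec
  mul_sup_distrib u v w := ev_injective
    (fun P => by simp only [ev1_mul, ev1_sup, CommLBimonoid.mul_sup_distrib])
    (fun P => by simp only [ev2_mul, ev2_sup, CommLBimonoid.mul_sup_distrib])
  add_inf_distrib u v w := ev_injective
    (fun P => by simp only [ev1_add, ev1_inf, CommLBimonoid.add_inf_distrib])
    (fun P => by simp only [ev2_add, ev2_inf, CommLBimonoid.add_inf_distrib])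
  hemidistrib u v w := by
    rw [← sup_eq_right]
    apply ev_injective
    · intro P
      simp only [ev1_mul, ev1_sup, ev1_add]
      exact sup_eq_right.2 (CommLBimonoid.hemidistrib _ _ _)
    · intro P
      simp only [ev2_mul, ev2_sup, ev2_add]
      exact sup_eq_right.2 (CommLBimonoid.hemidistrib _ _ _)

theorem ev1_eval (P : Spec E₁) (v : ℕ → Md E₁ E₂) (t : Tm) :
    ev1 P (t.eval v) = t.eval (fun n => ev1 P (v n)) := by
  induction t with
  | var n => rfl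
  | one => exact ev1_one P
  | zero => exact ev1_zero P
  | mul s t hs ht => simp only [Tm.eval, ← hs, ← ht]; exact ev1_mul P _ _
  | add s t hs ht => simp only [Tm.eval, ← hs, ← ht]; exact ev1_add P _ _
  | inf s t hs ht => simp only [Tm.eval, ← hs, ← ht]; exact ev1_inf P _ _
  | sup s t hs ht => simp only [Tm.eval, ← hs, ← ht]; exact ev1_sup P _ _

theorem ev2_eval (P : Spec E₂) (v : ℕ → Md E₁ E₂) (t : Tm) :
    ev2 P (t.eval v) = t.eval (fun n => ev2 P (v n)) := by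
  induction t with
  | var n => rfl
  | one => exact ev2_one P
  | zero => exact ev2_zero P
  | mul s t hs ht => simp only [Tm.eval, ← hs, ← ht]; exact ev2_mul P _ _
  | add s t hs ht => simp only [Tm.eval, ← hs, ← ht]; exact ev2_add P _ _
  | inf s t hs ht => simp only [Tm.eval, ← hs, ← ht]; exact ev2_inf P _ _
  | sup s t hs ht => simp only [Tm.eval, ← hs, ← ht]; exact ev2_sup P _ _

instance : InV (Md E₁ E₂) where
  out := by
    intro p hp v
    apply ev_injective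
    · intro P
      rw [ev1_eval, ev1_eval]
      exact hp.1 _
    · intro P
      rw [ev2_eval, ev2_eval]
      exact hp.2 _

end Md

end Pool.Agent.Lib.MP_edd14c_al
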