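import Pool.Agent.Lib.MP_edd14c_al.Models

/-!
# Structure of the algebras in the variety generated by `B2` and `B4`
-/

set_option linter.unusedSectionVars false
set_option linter.unusedSimpArgs false
set_option linter.unnecessarySeqFocus false

universe u

namespace Pool.Agent.Lib.MP_edd14c_al

instance : Mul Tm := ⟨Tm.mul⟩
instance : Add Tm := ⟨Tm.add⟩
instance : One Tm := ⟨Tm.one⟩
instance : Zero Tm := ⟨Tm.zero⟩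
instance : Min Tm := ⟨Tm.inf⟩
instance : Max Tm := ⟨Tm.sup⟩

section Poly

variable {A : Type u} [Mul A] [Add A] [One A] [Zero A] [Min A] [Max A]

def T1 : A := 1 + 1
def T2 : A := 0 * 0
def p0 (x : A) : A := x ⊓ T1
def p1 (x : A) : A := x * T2
def p2 (x : A) : A := (x + 1) * T2
def p3 (x : A) : A := (x + T1) ⊓ T2

end Poly

/-- sequences of variables -/
def sq {A : Type u} (x y z : A) : ℕ → A
  | 0 => x
  | 1 => y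
  | _ => z

abbrev X : Tm := Tm.var 0
abbrev Y : Tm := Tm.var 1
abbrev Z : Tm := Tm.var 2

section Identities

variable {A : Type u} [CommLBimonoid A] [InV A]

theorem InV.id (s t : Tm) (h2 : ∀ v : ℕ → B2, s.eval v = t.eval v)
    (h4 : ∀ v : ℕ → B4, s.eval v = t.eval v) (v : ℕ → A) : s.eval v = t.eval v :=
  InV.out (s, t) ⟨h2, h4⟩ v

theorem inf_sup_id (x y z : A) : x ⊓ (y ⊔ z) = (x ⊓ y) ⊔ (x ⊓ z) := by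
  have h2 : ∀ x y z : B2, x ⊓ (y ⊔ z) = (x ⊓ y) ⊔ (x ⊓ z) := by decide
  have h4 : ∀ x y z : B4, x ⊓ (y ⊔ z) = (x ⊓ y) ⊔ (x ⊓ z) := by decide
  exact InV.id (X ⊓ (Y ⊔ Z)) ((X ⊓ Y) ⊔ (X ⊓ Z)) (fun v => h2 (v 0) (v 1) (v 2))
    (fun v => h4 (v 0) (v 1) (v 2)) (sq x y z)

theorem bot_id (x : A) : (T1 ⊓ T2) ⊓ x = T1 ⊓ T2 := by
  have h2 : ∀ x : B2, (T1 ⊓ T2) ⊓ x = T1 ⊓ T2 := by decide
  have h4 : ∀ x : B4, (T1 ⊓ T2) ⊓ x = T1 ⊓ T2 := by decide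
  exact InV.id ((T1 ⊓ T2) ⊓ X) (T1 ⊓ T2) (fun v => h2 (v 0)) (fun v => h4 (v 0)) (sq x x x)

theorem top_id (x : A) : (T1 ⊔ T2) ⊔ x = T1 ⊔ T2 := by
  have h2 : ∀ x : B2, (T1 ⊔ T2) ⊔ x = T1 ⊔ T2 := by decide
  have h4 : ∀ x : B4, (T1 ⊔ T2) ⊔ x = T1 ⊔ T2 := by decide
  exact InV.id ((T1 ⊔ T2) ⊔ X) (T1 ⊔ T2) (fun v => h2 (v 0)) (fun v => h4 (v 0)) (sq x x x)

theorem recon_id (x : A) : p0 x ⊔ ((p1 x ⊓ 1) ⊔ ((p2 x ⊓ 0) ⊔ p3 x)) = x := by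
  have h2 : ∀ x : B2, p0 x ⊔ ((p1 x ⊓ 1) ⊔ ((p2 x ⊓ 0) ⊔ p3 x)) = x := by decide
  have h4 : ∀ x : B4, p0 x ⊔ ((p1 x ⊓ 1) ⊔ ((p2 x ⊓ 0) ⊔ p3 x)) = x := by decide
  exact InV.id (p0 X ⊔ ((p1 X ⊓ 1) ⊔ ((p2 X ⊓ 0) ⊔ p3 X))) X (fun v => h2 (v 0))
    (fun v => h4 (v 0)) (sq x x x)

theorem p21_id (x : A) : p2 x ⊓ p1 x = p2 x := by
  have h2 : ∀ x : B2, p2 x ⊓ p1 x = p2 x := by decide
  have h4 : ∀ x : B4, p2 x ⊓ p1 x = p2 x := by decide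
  exact InV.id (p2 X ⊓ p1 X) (p2 X) (fun v => h2 (v 0)) (fun v => h4 (v 0)) (sq x x x)

theorem p32_id (x : A) : p3 x ⊓ p2 x = p3 x := by
  have h2 : ∀ x : B2, p3 x ⊓ p2 x = p3 x := by decide
  have h4 : ∀ x : B4, p3 x ⊓ p2 x = p3 x := by decide
  exact InV.id (p3 X ⊓ p2 X) (p3 X) (fun v => h2 (v 0)) (fun v => h4 (v 0)) (sq x x x)

theorem p1_mem (x : A) : p1 x * T2 = p1 x := by
  have h2 : ∀ x : B2, p1 x * T2 = p1 x := by decide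
  have h4 : ∀ x : B4, p1 x * T2 = p1 x := by decide
  exact InV.id (p1 X * T2) (p1 X) (fun v => h2 (v 0)) (fun v => h4 (v 0)) (sq x x x)

theorem p2_mem (x : A) : p2 x * T2 = p2 x := by
  have h2 : ∀ x : B2, p2 x * T2 = p2 x := by decide
  have h4 : ∀ x : B4, p2 x * T2 = p2 x := by decide
  exact InV.id (p2 X * T2) (p2 X) (fun v => h2 (v 0)) (fun v => h4 (v 0)) (sq x x x)

theorem p3_mem (x : A) : p3 x * T2 = p3 x := by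
  have h2 : ∀ x : B2, p3 x * T2 = p3 x := by decide
  have h4 : ∀ x : B4, p3 x * T2 = p3 x := by decide
  exact InV.id (p3 X * T2) (p3 X) (fun v => h2 (v 0)) (fun v => h4 (v 0)) (sq x x x)

theorem inf_mem_id (x y : A) : ((x * T2) ⊓ (y * T2)) * T2 = (x * T2) ⊓ (y * T2) := by
  have h2 : ∀ x y : B2, ((x * T2) ⊓ (y * T2)) * T2 = (x * T2) ⊓ (y * T2) := by decide
  have h4 : ∀ x y : B4, ((x * T2) ⊓ (y * T2)) * T2 = (x * T2) ⊓ (y * T2) := by decide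
  exact InV.id (((X * T2) ⊓ (Y * T2)) * T2) ((X * T2) ⊓ (Y * T2)) (fun v => h2 (v 0) (v 1))
    (fun v => h4 (v 0) (v 1)) (sq x y y)

theorem sup_mem_id (x y : A) : ((x * T2) ⊔ (y * T2)) * T2 = (x * T2) ⊔ (y * T2) := by
  have h2 : ∀ x y : B2, ((x * T2) ⊔ (y * T2)) * T2 = (x * T2) ⊔ (y * T2) := by decide
  have h4 : ∀ x y : B4, ((x * T2) ⊔ (y * T2)) * T2 = (x * T2) ⊔ (y * T2) := by decide
  exact InV.id (((X * T2) ⊔ (Y * T2)) * T2) ((X * T2) ⊔ (Y * T2)) (fun v => h2 (v 0) (v 1))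
    (fun v => h4 (v 0) (v 1)) (sq x y y)

theorem T2_mem : (T2 : A) * T2 = T2 := by
  have h2 : (T2 : B2) * T2 = T2 := by decide
  have h4 : (T2 : B4) * T2 = T2 := by decide
  exact InV.id (T2 * T2) T2 (fun _ => h2) (fun _ => h4) (fun _ => (1 : A))

theorem bot_mem_id : ((T1 : A) ⊓ T2) * T2 = T1 ⊓ T2 := by
  have h2 : ((T1 : B2) ⊓ T2) * T2 = T1 ⊓ T2 := by decide
  have h4 : ((T1 : B4) ⊓ T2) * T2 = T1 ⊓ T2 := by decide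
  exact InV.id ((T1 ⊓ T2) * T2) (T1 ⊓ T2) (fun _ => h2) (fun _ => h4) (fun _ => (1 : A))

theorem mem_le_id (x : A) : (x * T2) ⊓ T2 = x * T2 := by
  have h2 : ∀ x : B2, (x * T2) ⊓ T2 = x * T2 := by decide
  have h4 : ∀ x : B4, (x * T2) ⊓ T2 = x * T2 := by decide
  exact InV.id ((X * T2) ⊓ T2) (X * T2) (fun v => h2 (v 0)) (fun v => h4 (v 0)) (sq x x x)

/-! the operations in coordinates -/

theorem p0_mul (x y : A) : p0 (x * y) = p0 x ⊓ p0 y := by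
  have h2 : ∀ x y : B2, p0 (x * y) = p0 x ⊓ p0 y := by decide
  have h4 : ∀ x y : B4, p0 (x * y) = p0 x ⊓ p0 y := by decide
  exact InV.id (p0 (X * Y)) (p0 X ⊓ p0 Y) (fun v => h2 (v 0) (v 1))
    (fun v => h4 (v 0) (v 1)) (sq x y y)

theorem p0_inf (x y : A) : p0 (x ⊓ y) = p0 x ⊓ p0 y := by
  have h2 : ∀ x y : B2, p0 (x ⊓ y) = p0 x ⊓ p0 y := by decide
  have h4 : ∀ x y : B4, p0 (x ⊓ y) = p0 x ⊓ p0 y := by decide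
  exact InV.id (p0 (X ⊓ Y)) (p0 X ⊓ p0 Y) (fun v => h2 (v 0) (v 1))
    (fun v => h4 (v 0) (v 1)) (sq x y y)

theorem p0_add (x y : A) : p0 (x + y) = p0 x ⊔ p0 y := by
  have h2 : ∀ x y : B2, p0 (x + y) = p0 x ⊔ p0 y := by decide
  have h4 : ∀ x y : B4, p0 (x + y) = p0 x ⊔ p0 y := by decide
  exact InV.id (p0 (X + Y)) (p0 X ⊔ p0 Y) (fun v => h2 (v 0) (v 1))
    (fun v => h4 (v 0) (v 1)) (sq x y y)

theorem p0_sup (x y : A) : p0 (x ⊔ y) = p0 x ⊔ p0 y := by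
  have h2 : ∀ x y : B2, p0 (x ⊔ y) = p0 x ⊔ p0 y := by decide
  have h4 : ∀ x y : B4, p0 (x ⊔ y) = p0 x ⊔ p0 y := by decide
  exact InV.id (p0 (X ⊔ Y)) (p0 X ⊔ p0 Y) (fun v => h2 (v 0) (v 1))
    (fun v => h4 (v 0) (v 1)) (sq x y y)

theorem p0_one : p0 (1 : A) = T1 := by
  have h2 : p0 (1 : B2) = T1 := by decide
  have h4 : p0 (1 : B4) = T1 := by decide
  exact InV.id (p0 1) T1 (fun _ => h2) (fun _ => h4) (fun _ => (1 : A))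

theorem p0_zero : p0 (0 : A) = T1 ⊓ T2 := by
  have h2 : p0 (0 : B2) = T1 ⊓ T2 := by decide
  have h4 : p0 (0 : B4) = T1 ⊓ T2 := by decide
  exact InV.id (p0 0) (T1 ⊓ T2) (fun _ => h2) (fun _ => h4) (fun _ => (1 : A))

theorem p1_mul (x y : A) : p1 (x * y) = p1 x ⊓ p1 y := by
  have h2 : ∀ x y : B2, p1 (x * y) = p1 x ⊓ p1 y := by decide
  have h4 : ∀ x y : B4, p1 (x * y) = p1 x ⊓ p1 y := by decide
  exact InV.id (p1 (X * Y)) (p1 X ⊓ p1 Y) (fun v => h2 (v 0) (v 1))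
    (fun v => h4 (v 0) (v 1)) (sq x y y)

theorem p1_inf (x y : A) : p1 (x ⊓ y) = p1 x ⊓ p1 y := by
  have h2 : ∀ x y : B2, p1 (x ⊓ y) = p1 x ⊓ p1 y := by decide
  have h4 : ∀ x y : B4, p1 (x ⊓ y) = p1 x ⊓ p1 y := by decide
  exact InV.id (p1 (X ⊓ Y)) (p1 X ⊓ p1 Y) (fun v => h2 (v 0) (v 1))
    (fun v => h4 (v 0) (v 1)) (sq x y y)

theorem p1_sup (x y : A) : p1 (x ⊔ y) = p1 x ⊔ p1 y := by
  have h2 : ∀ x y : B2, p1 (x ⊔ y) = p1 x ⊔ p1 y := by decide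
  have h4 : ∀ x y : B4, p1 (x ⊔ y) = p1 x ⊔ p1 y := by decide
  exact InV.id (p1 (X ⊔ Y)) (p1 X ⊔ p1 Y) (fun v => h2 (v 0) (v 1))
    (fun v => h4 (v 0) (v 1)) (sq x y y)

theorem p1_add (x y : A) :
    p1 (x + y) = ((p1 x ⊓ p2 y) ⊔ (p2 x ⊓ p1 y)) ⊔ (p3 x ⊔ p3 y) := by
  have h2 : ∀ x y : B2, p1 (x + y) = ((p1 x ⊓ p2 y) ⊔ (p2 x ⊓ p1 y)) ⊔ (p3 x ⊔ p3 y) := by
    decide
  have h4 : ∀ x y : B4, p1 (x + y) = ((p1 x ⊓ p2 y) ⊔ (p2 x ⊓ p1 y)) ⊔ (p3 x ⊔ p3 y) := by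
    decide
  exact InV.id (p1 (X + Y)) (((p1 X ⊓ p2 Y) ⊔ (p2 X ⊓ p1 Y)) ⊔ (p3 X ⊔ p3 Y))
    (fun v => h2 (v 0) (v 1)) (fun v => h4 (v 0) (v 1)) (sq x y y)

theorem p1_one : p1 (1 : A) = T2 := by
  have h2 : p1 (1 : B2) = T2 := by decide
  have h4 : p1 (1 : B4) = T2 := by decide
  exact InV.id (p1 1) T2 (fun _ => h2) (fun _ => h4) (fun _ => (1 : A))

theorem p1_zero : p1 (0 : A) = T2 := by
  have h2 : p1 (0 : B2) = T2 := by decide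
  have h4 : p1 (0 : B4) = T2 := by decide
  exact InV.id (p1 0) T2 (fun _ => h2) (fun _ => h4) (fun _ => (1 : A))

theorem p2_mul (x y : A) : p2 (x * y) = (p2 x ⊓ p1 y) ⊔ (p1 x ⊓ p2 y) := by
  have h2 : ∀ x y : B2, p2 (x * y) = (p2 x ⊓ p1 y) ⊔ (p1 x ⊓ p2 y) := by decide
  have h4 : ∀ x y : B4, p2 (x * y) = (p2 x ⊓ p1 y) ⊔ (p1 x ⊓ p2 y) := by decide
  exact InV.id (p2 (X * Y)) ((p2 X ⊓ p1 Y) ⊔ (p1 X ⊓ p2 Y)) (fun v => h2 (v 0) (v 1))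
    (fun v => h4 (v 0) (v 1)) (sq x y y)

theorem p2_inf (x y : A) : p2 (x ⊓ y) = p2 x ⊓ p2 y := by
  have h2 : ∀ x y : B2, p2 (x ⊓ y) = p2 x ⊓ p2 y := by decide
  have h4 : ∀ x y : B4, p2 (x ⊓ y) = p2 x ⊓ p2 y := by decide
  exact InV.id (p2 (X ⊓ Y)) (p2 X ⊓ p2 Y) (fun v => h2 (v 0) (v 1))
    (fun v => h4 (v 0) (v 1)) (sq x y y)

theorem p2_sup (x y : A) : p2 (x ⊔ y) = p2 x ⊔ p2 y := by
  have h2 : ∀ x y : B2, p2 (x ⊔ y) = p2 x ⊔ p2 y := by decide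
  have h4 : ∀ x y : B4, p2 (x ⊔ y) = p2 x ⊔ p2 y := by decide
  exact InV.id (p2 (X ⊔ Y)) (p2 X ⊔ p2 Y) (fun v => h2 (v 0) (v 1))
    (fun v => h4 (v 0) (v 1)) (sq x y y)

theorem p2_add (x y : A) : p2 (x + y) = (p2 x ⊓ p2 y) ⊔ (p3 x ⊔ p3 y) := by
  have h2 : ∀ x y : B2, p2 (x + y) = (p2 x ⊓ p2 y) ⊔ (p3 x ⊔ p3 y) := by decide
  have h4 : ∀ x y : B4, p2 (x + y) = (p2 x ⊓ p2 y) ⊔ (p3 x ⊔ p3 y) := by decide
  exact InV.id (p2 (X + Y)) ((p2 X ⊓ p2 Y) ⊔ (p3 X ⊔ p3 Y)) (fun v => h2 (v 0) (v 1))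
    (fun v => h4 (v 0) (v 1)) (sq x y y)

theorem p2_one : p2 (1 : A) = T1 ⊓ T2 := by
  have h2 : p2 (1 : B2) = T1 ⊓ T2 := by decide
  have h4 : p2 (1 : B4) = T1 ⊓ T2 := by decide
  exact InV.id (p2 1) (T1 ⊓ T2) (fun _ => h2) (fun _ => h4) (fun _ => (1 : A))

theorem p2_zero : p2 (0 : A) = T2 := by
  have h2 : p2 (0 : B2) = T2 := by decide
  have h4 : p2 (0 : B4) = T2 := by decide
  exact InV.id (p2 0) T2 (fun _ => h2) (fun _ => h4) (fun _ => (1 : A))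

theorem p3_mul (x y : A) :
    p3 (x * y) = (p2 x ⊓ p2 y) ⊔ ((p3 x ⊓ p1 y) ⊔ (p1 x ⊓ p3 y)) := by
  have h2 : ∀ x y : B2, p3 (x * y) = (p2 x ⊓ p2 y) ⊔ ((p3 x ⊓ p1 y) ⊔ (p1 x ⊓ p3 y)) := by
    decide
  have h4 : ∀ x y : B4, p3 (x * y) = (p2 x ⊓ p2 y) ⊔ ((p3 x ⊓ p1 y) ⊔ (p1 x ⊓ p3 y)) := by
    decide
  exact InV.id (p3 (X * Y)) ((p2 X ⊓ p2 Y) ⊔ ((p3 X ⊓ p1 Y) ⊔ (p1 X ⊓ p3 Y)))
    (fun v => h2 (v 0) (v 1)) (fun v => h4 (v 0) (v 1)) (sq x y y)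

theorem p3_inf (x y : A) : p3 (x ⊓ y) = p3 x ⊓ p3 y := by
  have h2 : ∀ x y : B2, p3 (x ⊓ y) = p3 x ⊓ p3 y := by decide
  have h4 : ∀ x y : B4, p3 (x ⊓ y) = p3 x ⊓ p3 y := by decide
  exact InV.id (p3 (X ⊓ Y)) (p3 X ⊓ p3 Y) (fun v => h2 (v 0) (v 1))
    (fun v => h4 (v 0) (v 1)) (sq x y y)

theorem p3_sup (x y : A) : p3 (x ⊔ y) = p3 x ⊔ p3 y := by
  have h2 : ∀ x y : B2, p3 (x ⊔ y) = p3 x ⊔ p3 y := by decide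
  have h4 : ∀ x y : B4, p3 (x ⊔ y) = p3 x ⊔ p3 y := by decide
  exact InV.id (p3 (X ⊔ Y)) (p3 X ⊔ p3 Y) (fun v => h2 (v 0) (v 1))
    (fun v => h4 (v 0) (v 1)) (sq x y y)

theorem p3_add (x y : A) : p3 (x + y) = p3 x ⊔ p3 y := by
  have h2 : ∀ x y : B2, p3 (x + y) = p3 x ⊔ p3 y := by decide
  have h4 : ∀ x y : B4, p3 (x + y) = p3 x ⊔ p3 y := by decide
  exact InV.id (p3 (X + Y)) (p3 X ⊔ p3 Y) (fun v => h2 (v 0) (v 1))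
    (fun v => h4 (v 0) (v 1)) (sq x y y)

theorem p3_one : p3 (1 : A) = T1 ⊓ T2 := by
  have h2 : p3 (1 : B2) = T1 ⊓ T2 := by decide
  have h4 : p3 (1 : B4) = T1 ⊓ T2 := by decide
  exact InV.id (p3 1) (T1 ⊓ T2) (fun _ => h2) (fun _ => h4) (fun _ => (1 : A))

theorem p3_zero : p3 (0 : A) = T1 ⊓ T2 := by
  have h2 : p3 (0 : B2) = T1 ⊓ T2 := by decide
  have h4 : p3 (0 : B4) = T1 ⊓ T2 := by decide
  exact InV.id (p3 0) (T1 ⊓ T2) (fun _ => h2) (fun _ => h4) (fun _ => (1 : A))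

/-! special elements -/

/-- elements below `T1` -/
theorem d1_id (x : A) : p0 (x ⊓ T1) = x ⊓ T1 ∧ p1 (x ⊓ T1) = T1 ⊓ T2 ∧
    p2 (x ⊓ T1) = T1 ⊓ T2 ∧ p3 (x ⊓ T1) = T1 ⊓ T2 := by
  refine ⟨?_, ?_, ?_, ?_⟩
  · have h2 : ∀ x : B2, p0 (x ⊓ T1) = x ⊓ T1 := by decide
    have h4 : ∀ x : B4, p0 (x ⊓ T1) = x ⊓ T1 := by decide
    exact InV.id (p0 (X ⊓ T1)) (X ⊓ T1) (fun v => h2 (v 0)) (fun v => h4 (v 0)) (sq x x x)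
  · have h2 : ∀ x : B2, p1 (x ⊓ T1) = T1 ⊓ T2 := by decide
    have h4 : ∀ x : B4, p1 (x ⊓ T1) = T1 ⊓ T2 := by decide
    exact InV.id (p1 (X ⊓ T1)) (T1 ⊓ T2) (fun v => h2 (v 0)) (fun v => h4 (v 0)) (sq x x x)
  · have h2 : ∀ x : B2, p2 (x ⊓ T1) = T1 ⊓ T2 := by decide
    have h4 : ∀ x : B4, p2 (x ⊓ T1) = T1 ⊓ T2 := by decide
    exact InV.id (p2 (X ⊓ T1)) (T1 ⊓ T2) (fun v => h2 (v 0)) (fun v => h4 (v 0)) (sq x x x)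
  · have h2 : ∀ x : B2, p3 (x ⊓ T1) = T1 ⊓ T2 := by decide
    have h4 : ∀ x : B4, p3 (x ⊓ T1) = T1 ⊓ T2 := by decide
    exact InV.id (p3 (X ⊓ T1)) (T1 ⊓ T2) (fun v => h2 (v 0)) (fun v => h4 (v 0)) (sq x x x)

/-- the elements `d ⊓ 1` for `d` in the second skeleton -/
theorem d2one_id (x : A) : p0 ((x * T2) ⊓ 1) = T1 ⊓ T2 ∧ p1 ((x * T2) ⊓ 1) = x * T2 ∧
    p2 ((x * T2) ⊓ 1) = T1 ⊓ T2 ∧ p3 ((x * T2) ⊓ 1) = T1 ⊓ T2 := by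
  refine ⟨?_, ?_, ?_, ?_⟩
  · have h2 : ∀ x : B2, p0 ((x * T2) ⊓ 1) = T1 ⊓ T2 := by decide
    have h4 : ∀ x : B4, p0 ((x * T2) ⊓ 1) = T1 ⊓ T2 := by decide
    exact InV.id (p0 ((X * T2) ⊓ 1)) (T1 ⊓ T2) (fun v => h2 (v 0)) (fun v => h4 (v 0)) (sq x x x)
  · have h2 : ∀ x : B2, p1 ((x * T2) ⊓ 1) = x * T2 := by decide
    have h4 : ∀ x : B4, p1 ((x * T2) ⊓ 1) = x * T2 := by decide
    exact InV.id (p1 ((X * T2) ⊓ 1)) (X * T2) (fun v => h2 (v 0)) (fun v => h4 (v 0)) (sq x x x)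
  · have h2 : ∀ x : B2, p2 ((x * T2) ⊓ 1) = T1 ⊓ T2 := by decide
    have h4 : ∀ x : B4, p2 ((x * T2) ⊓ 1) = T1 ⊓ T2 := by decide
    exact InV.id (p2 ((X * T2) ⊓ 1)) (T1 ⊓ T2) (fun v => h2 (v 0)) (fun v => h4 (v 0)) (sq x x x)
  · have h2 : ∀ x : B2, p3 ((x * T2) ⊓ 1) = T1 ⊓ T2 := by decide
    have h4 : ∀ x : B4, p3 ((x * T2) ⊓ 1) = T1 ⊓ T2 := by decide
    exact InV.id (p3 ((X * T2) ⊓ 1)) (T1 ⊓ T2) (fun v => h2 (v 0)) (fun v => h4 (v 0)) (sq x x x)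

/-- the elements `d ⊓ 0` for `d` in the second skeleton -/
theorem d2zero_id (x : A) : p0 ((x * T2) ⊓ 0) = T1 ⊓ T2 ∧ p1 ((x * T2) ⊓ 0) = x * T2 ∧
    p2 ((x * T2) ⊓ 0) = x * T2 ∧ p3 ((x * T2) ⊓ 0) = T1 ⊓ T2 := by
  refine ⟨?_, ?_, ?_, ?_⟩
  · have h2 : ∀ x : B2, p0 ((x * T2) ⊓ 0) = T1 ⊓ T2 := by decide
    have h4 : ∀ x : B4, p0 ((x * T2) ⊓ 0) = T1 ⊓ T2 := by decide
    exact InV.id (p0 ((X * T2) ⊓ 0)) (T1 ⊓ T2) (fun v => h2 (v 0)) (fun v => h4 (v 0)) (sq x x x)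
  · have h2 : ∀ x : B2, p1 ((x * T2) ⊓ 0) = x * T2 := by decide
    have h4 : ∀ x : B4, p1 ((x * T2) ⊓ 0) = x * T2 := by decide
    exact InV.id (p1 ((X * T2) ⊓ 0)) (X * T2) (fun v => h2 (v 0)) (fun v => h4 (v 0)) (sq x x x)
  · have h2 : ∀ x : B2, p2 ((x * T2) ⊓ 0) = x * T2 := by decide
    have h4 : ∀ x : B4, p2 ((x * T2) ⊓ 0) = x * T2 := by decide
    exact InV.id (p2 ((X * T2) ⊓ 0)) (X * T2) (fun v => h2 (v 0)) (fun v => h4 (v 0)) (sq x x x)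
  · have h2 : ∀ x : B2, p3 ((x * T2) ⊓ 0) = T1 ⊓ T2 := by decide
    have h4 : ∀ x : B4, p3 ((x * T2) ⊓ 0) = T1 ⊓ T2 := by decide
    exact InV.id (p3 ((X * T2) ⊓ 0)) (T1 ⊓ T2) (fun v => h2 (v 0)) (fun v => h4 (v 0)) (sq x x x)

/-- the elements `d` of the second skeleton -/
theorem d2_id (x : A) : p0 (x * T2) = T1 ⊓ T2 ∧ p1 (x * T2) = x * T2 ∧
    p2 (x * T2) = x * T2 ∧ p3 (x * T2) = x * T2 := by
  refine ⟨?_, ?_, ?_, ?_⟩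
  · have h2 : ∀ x : B2, p0 (x * T2) = T1 ⊓ T2 := by decide
    have h4 : ∀ x : B4, p0 (x * T2) = T1 ⊓ T2 := by decide
    exact InV.id (p0 (X * T2)) (T1 ⊓ T2) (fun v => h2 (v 0)) (fun v => h4 (v 0)) (sq x x x)
  · have h2 : ∀ x : B2, p1 (x * T2) = x * T2 := by decide
    have h4 : ∀ x : B4, p1 (x * T2) = x * T2 := by decide
    exact InV.id (p1 (X * T2)) (X * T2) (fun v => h2 (v 0)) (fun v => h4 (v 0)) (sq x x x)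
  · have h2 : ∀ x : B2, p2 (x * T2) = x * T2 := by decide
    have h4 : ∀ x : B4, p2 (x * T2) = x * T2 := by decide
    exact InV.id (p2 (X * T2)) (X * T2) (fun v => h2 (v 0)) (fun v => h4 (v 0)) (sq x x x)
  · have h2 : ∀ x : B2, p3 (x * T2) = x * T2 := by decide
    have h4 : ∀ x : B4, p3 (x * T2) = x * T2 := by decide
    exact InV.id (p3 (X * T2)) (X * T2) (fun v => h2 (v 0)) (fun v => h4 (v 0)) (sq x x x)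

/-- the elements `0 ⊔ d` for `d` in the second skeleton -/
theorem d2sup_id (x : A) : p0 (0 ⊔ (x * T2)) = T1 ⊓ T2 ∧ p1 (0 ⊔ (x * T2)) = T2 ∧
    p2 (0 ⊔ (x * T2)) = T2 ∧ p3 (0 ⊔ (x * T2)) = x * T2 := by
  refine ⟨?_, ?_, ?_, ?_⟩
  · have h2 : ∀ x : B2, p0 (0 ⊔ (x * T2)) = T1 ⊓ T2 := by decide
    have h4 : ∀ x : B4, p0 (0 ⊔ (x * T2)) = T1 ⊓ T2 := by decide
    exact InV.id (p0 (0 ⊔ (X * T2))) (T1 ⊓ T2) (fun v => h2 (v 0)) (fun v => h4 (v 0)) (sq x x x)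
  · have h2 : ∀ x : B2, p1 (0 ⊔ (x * T2)) = T2 := by decide
    have h4 : ∀ x : B4, p1 (0 ⊔ (x * T2)) = T2 := by decide
    exact InV.id (p1 (0 ⊔ (X * T2))) T2 (fun v => h2 (v 0)) (fun v => h4 (v 0)) (sq x x x)
  · have h2 : ∀ x : B2, p2 (0 ⊔ (x * T2)) = T2 := by decide
    have h4 : ∀ x : B4, p2 (0 ⊔ (x * T2)) = T2 := by decide
    exact InV.id (p2 (0 ⊔ (X * T2))) T2 (fun v => h2 (v 0)) (fun v => h4 (v 0)) (sq x x x)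
  · have h2 : ∀ x : B2, p3 (0 ⊔ (x * T2)) = x * T2 := by decide
    have h4 : ∀ x : B4, p3 (0 ⊔ (x * T2)) = x * T2 := by decide
    exact InV.id (p3 (0 ⊔ (X * T2))) (X * T2) (fun v => h2 (v 0)) (fun v => h4 (v 0)) (sq x x x)

end Identities

end Pool.Agent.Lib.MP_edd14c_al
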