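import Pool.Agent.Lib.MP_edd14c_al.Defs

/-!
# Uniqueness of the complemented Dedekind-MacNeille completion
-/

universe u

namespace Pool.Agent.Lib.MP_edd14c_al

section Basic

variable {A : Type u} [CommLBimonoid A]

theorem mul_mono_right (x : A) {a b : A} (h : a ≤ b) : x * a ≤ x * b := by
  have := CommLBimonoid.mul_sup_distrib x a b
  rw [sup_eq_right.2 h] at this
  rw [this]
  exact le_sup_left

theorem mul_mono {a b c d : A} (h : a ≤ b) (h' : c ≤ d) : a * c ≤ b * d := by
  calc a * c ≤ a * d := mul_mono_right a h'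
    _ = d * a := mul_comm _ _
    _ ≤ d * b := mul_mono_right d h
    _ = b * d := mul_comm _ _

theorem add_mono_right (x : A) {a b : A} (h : a ≤ b) : x + a ≤ x + b := by
  have := CommLBimonoid.add_inf_distrib x a b
  rw [inf_eq_left.2 h] at this
  rw [this]
  exact inf_le_right

theorem add_mono {a b c d : A} (h : a ≤ b) (h' : c ≤ d) : a + c ≤ b + d := by
  calc a + c ≤ a + d := add_mono_right a h'
    _ = d + a := add_comm _ _
    _ ≤ d + b := add_mono_right d h
    _ = b + d := add_comm _ _

theorem IsComplementPair.symm {a b : A} (h : IsComplementPair a b) : IsComplementPair b a :=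
  ⟨by rw [mul_comm]; exact h.1, by rw [add_comm]; exact h.2⟩

/-- residuation -/
theorem IsComplementPair.mul_le_iff {y c : A} (h : IsComplementPair y c) (x z : A) :
    x * c ≤ z ↔ x ≤ z + y := by
  constructor
  · intro hx
    calc x = x * 1 := (mul_one x).symm
      _ ≤ x * (c + y) := mul_mono_right x (by rw [add_comm]; exact h.2)
      _ ≤ x * c + y := CommLBimonoid.hemidistrib x c y
      _ ≤ z + y := add_mono hx le_rfl
  · intro hx
    calc x * c ≤ (z + y) * c := mul_mono hx le_rfl
      _ = c * (y + z) := by rw [mul_comm, add_comm z y]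
      _ ≤ c * y + z := CommLBimonoid.hemidistrib c y z
      _ ≤ 0 + z := add_mono (by rw [mul_comm]; exact h.1) le_rfl
      _ = z := zero_add z

theorem IsComplementPair.le_of {y c c' : A} (h : IsComplementPair y c)
    (h' : IsComplementPair y c') : c ≤ c' := by
  have : 1 ≤ c' + y := by rw [add_comm]; exact h'.2
  have := (h.mul_le_iff 1 c').2 this
  rwa [one_mul] at this

theorem IsComplementPair.unique {y c c' : A} (h : IsComplementPair y c)
    (h' : IsComplementPair y c') : c = c' :=
  le_antisymm (h.le_of h') (h'.le_of h)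

theorem IsComplementPair.add_mul {a a' b b' : A} (h : IsComplementPair a a')
    (h' : IsComplementPair b b') : IsComplementPair (a + b) (a' * b') := by
  constructor
  · have h1 : (a + b) * (a' * b') ≤ 0 ↔ _ := Iff.rfl
    rw [← mul_assoc, h'.mul_le_iff, h.mul_le_iff, zero_add, add_comm]
  · -- `1 ≤ (a + b) + a' * b'`
    have h1 : b' ≤ a' * b' + a := by
      rw [← h.mul_le_iff, mul_comm]
    calc (1 : A) ≤ b + b' := h'.2
      _ ≤ b + (a' * b' + a) := add_mono_right b h1
      _ = (a + b) + a' * b' := by rw [add_comm (a' * b') a, ← add_assoc, add_comm b a]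

theorem IsComplementPair.mul_add {a a' b b' : A} (h : IsComplementPair a a')
    (h' : IsComplementPair b b') : IsComplementPair (a * b) (a' + b') :=
  (h.symm.add_mul h'.symm).symm

theorem isComplementPair_zero_one : IsComplementPair (0 : A) 1 :=
  ⟨by rw [mul_one], by rw [zero_add]⟩

theorem IsComplementPair.anti {a a' b b' : A} (h : IsComplementPair a a')
    (h' : IsComplementPair b b') (hab : a ≤ b) : b' ≤ a' := by
  have h1 : b' * a ≤ 0 := (mul_mono_right b' hab).trans h'.symm.1
  have := (h.symm.mul_le_iff b' 0).1 h1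
  rwa [zero_add] at this

end Basic

section Hom

variable {A B C : Type u} [CommLBimonoid A] [CommLBimonoid B] [CommLBimonoid C]

theorem BHom.map_one (f : BHom A B) : f 1 = 1 := f.map_one'
theorem BHom.map_zero (f : BHom A B) : f 0 = 0 := f.map_zero'
theorem BHom.map_mul (f : BHom A B) (x y : A) : f (x * y) = f x * f y := f.map_mul' x y
theorem BHom.map_add (f : BHom A B) (x y : A) : f (x + y) = f x + f y := f.map_add' x y
theorem BHom.map_inf (f : BHom A B) (x y : A) : f (x ⊓ y) = f x ⊓ f y := f.map_inf' x y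
theorem BHom.map_sup (f : BHom A B) (x y : A) : f (x ⊔ y) = f x ⊔ f y := f.map_sup' x y

theorem BHom.mono (f : BHom A B) {x y : A} (h : x ≤ y) : f x ≤ f y := by
  have := f.map_sup x y
  rw [sup_eq_right.2 h] at this
  rw [this]
  exact le_sup_left

theorem BHom.le_iff (f : BHom A B) (hf : Function.Injective f) (x y : A) :
    f x ≤ f y ↔ x ≤ y := by
  constructor
  · intro h
    have h1 : f (x ⊔ y) = f y := by rw [f.map_sup, sup_eq_right.2 h]
    exact sup_eq_right.1 (hf h1)
  · exact f.mono

/-- composition -/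
def BHom.comp (g : BHom B C) (f : BHom A B) : BHom A C where
  toFun := fun x => g (f x)
  map_one' := by rw [f.map_one, g.map_one]
  map_zero' := by rw [f.map_zero, g.map_zero]
  map_mul' x y := by rw [f.map_mul, g.map_mul]
  map_add' x y := by rw [f.map_add, g.map_add]
  map_inf' x y := by rw [f.map_inf, g.map_inf]
  map_sup' x y := by rw [f.map_sup, g.map_sup]

theorem BHom.map_eval (f : BHom A B) (v : ℕ → A) (t : Tm) :
    f (t.eval v) = t.eval (fun n => f (v n)) := by
  induction t with
  | var n => rfl
  | one => exact f.map_one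
  | zero => exact f.map_zero
  | mul s t hs ht => simp only [Tm.eval, f.map_mul, hs, ht]
  | add s t hs ht => simp only [Tm.eval, f.map_add, hs, ht]
  | inf s t hs ht => simp only [Tm.eval, f.map_inf, hs, ht]
  | sup s t hs ht => simp only [Tm.eval, f.map_sup, hs, ht]

end Hom

section Uniqueness

variable {A B B' : Type u} [CommLBimonoid A] [CommLBimonoid B] [CommLBimonoid B']

/-- the complement of an element in a complemented ℓ-bimonoid -/
noncomputable def nn (h : ∀ b : B, ∃ c : B, IsComplementPair b c) (b : B) : B :=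
  Classical.choose (h b)

theorem nn_spec (h : ∀ b : B, ∃ c : B, IsComplementPair b c) (b : B) :
    IsComplementPair b (nn h b) := Classical.choose_spec (h b)

variable {e : BHom A B} {e' : BHom A B'}

/-- `e a * (complement of e b)` -/
noncomputable def bb (h : IsComplDMCompletion e) (a b : A) : B := e a * nn h.complemented (e b)

/-- `e a + (complement of e b)` -/
noncomputable def gg (h : IsComplDMCompletion e) (a b : A) : B := e a + nn h.complemented (e b)

theorem bb_le_gg (h : IsComplDMCompletion e) (a b c d : A) :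
    bb h a b ≤ gg h c d ↔ a * d ≤ c + b := by
  unfold bb gg
  rw [(nn_spec h.complemented (e b)).mul_le_iff, add_right_comm,
    ← (nn_spec h.complemented (e d)).symm.mul_le_iff, ← e.map_add, ← e.map_mul,
    e.le_iff h.injective]

theorem bb_pair (h : IsComplDMCompletion e) (a b : A) : IsComplementPair (bb h a b) (gg h b a) := by
  have h1 := (nn_spec h.complemented (e a)).mul_add (nn_spec h.complemented (e b)).symm
  unfold bb gg
  rwa [add_comm] at h1

theorem join_dense (h : IsComplDMCompletion e) (x y : B)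
    (hxy : ∀ a b, bb h a b ≤ x → bb h a b ≤ y) : x ≤ y := by
  obtain ⟨s, hs, hlub⟩ := h.dense x
  apply hlub.2
  intro z hz
  obtain ⟨a, a', c, hc, rfl⟩ := hs z hz
  have : c = nn h.complemented (e a') := hc.unique (nn_spec h.complemented (e a'))
  subst this
  exact hxy a a' (hlub.1 hz)

theorem meet_dense (h : IsComplDMCompletion e) (x y : B)
    (hxy : ∀ a b, x ≤ gg h a b → y ≤ gg h a b) : y ≤ x := by
  have key : nn h.complemented x ≤ nn h.complemented y := by
    apply join_dense h
    intro a b hab
    have h1 : x ≤ gg h b a := (bb_pair h a b).anti (nn_spec h.complemented x).symm hab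
    have h2 := hxy b a h1
    exact (nn_spec h.complemented y |>.symm.symm |> fun hy => (IsComplementPair.anti hy
      (bb_pair h a b).symm h2))
  exact (nn_spec h.complemented x).symm.anti (nn_spec h.complemented y).symm key

theorem bb_le_bb_iff (h : IsComplDMCompletion e) (a b c d : A) :
    bb h a b ≤ bb h c d ↔ ∀ p q : A, c * q ≤ p + d → a * q ≤ p + b := by
  constructor
  · intro hle p q hpq
    rw [← bb_le_gg h] at hpq ⊢
    exact hle.trans hpq
  · intro hpq
    apply meet_dense h
    intro p q hle
    rw [bb_le_gg] at hle ⊢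
    exact hpq p q hle

/-- the comparison map between two completions -/
noncomputable def cmp (h : IsComplDMCompletion e) (h' : IsComplDMCompletion e') (x : B) : B' :=
  Classical.choose (h'.complete {y | ∃ a b, bb h a b ≤ x ∧ y = bb h' a b})

theorem cmp_spec (h : IsComplDMCompletion e) (h' : IsComplDMCompletion e') (x : B) :
    IsLUB {y | ∃ a b, bb h a b ≤ x ∧ y = bb h' a b} (cmp h h' x) :=
  Classical.choose_spec (h'.complete {y | ∃ a b, bb h a b ≤ x ∧ y = bb h' a b})

theorem bb_le_cmp_iff (h : IsComplDMCompletion e) (h' : IsComplDMCompletion e') (x : B)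
    (a b : A) : bb h' a b ≤ cmp h h' x ↔ bb h a b ≤ x := by
  constructor
  · intro hle
    apply meet_dense h
    intro c d hcd
    rw [bb_le_gg, ← bb_le_gg h']
    refine hle.trans ((cmp_spec h h' x).2 ?_)
    rintro _ ⟨a', b', hab', rfl⟩
    rw [bb_le_gg, ← bb_le_gg h]
    exact hab'.trans hcd
  · intro hle
    exact (cmp_spec h h' x).1 ⟨a, b, hle, rfl⟩

theorem cmp_cmp (h : IsComplDMCompletion e) (h' : IsComplDMCompletion e') (x : B) :
    cmp h' h (cmp h h' x) = x := by
  apply le_antisymm
  · apply join_dense h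
    intro a b hab
    rwa [bb_le_cmp_iff, bb_le_cmp_iff] at hab
  · apply join_dense h
    intro a b hab
    rwa [bb_le_cmp_iff, bb_le_cmp_iff]

theorem cmp_le_cmp (h : IsComplDMCompletion e) (h' : IsComplDMCompletion e') {x y : B}
    (hxy : x ≤ y) : cmp h h' x ≤ cmp h h' y := by
  apply join_dense h'
  intro a b hab
  rw [bb_le_cmp_iff] at hab ⊢
  exact hab.trans hxy

theorem cmp_le_iff (h : IsComplDMCompletion e) (h' : IsComplDMCompletion e') (x : B) (y : B') :
    cmp h h' x ≤ y ↔ x ≤ cmp h' h y := by
  constructor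
  · intro hxy
    have := cmp_le_cmp h' h hxy
    rwa [cmp_cmp] at this
  · intro hxy
    have := cmp_le_cmp h h' hxy
    rwa [cmp_cmp] at this

theorem cmp_inf (h : IsComplDMCompletion e) (h' : IsComplDMCompletion e') (x y : B) :
    cmp h h' (x ⊓ y) = cmp h h' x ⊓ cmp h h' y := by
  apply le_antisymm
  · exact le_inf (cmp_le_cmp h h' inf_le_left) (cmp_le_cmp h h' inf_le_right)
  · rw [← cmp_cmp h' h (cmp h h' x ⊓ cmp h h' y)]
    apply cmp_le_cmp
    refine le_inf ?_ ?_
    · rw [cmp_le_iff]
      exact inf_le_left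
    · rw [cmp_le_iff]
      exact inf_le_right

theorem cmp_sup (h : IsComplDMCompletion e) (h' : IsComplDMCompletion e') (x y : B) :
    cmp h h' (x ⊔ y) = cmp h h' x ⊔ cmp h h' y := by
  apply le_antisymm
  · rw [cmp_le_iff]
    refine sup_le ?_ ?_
    · rw [← cmp_le_iff]
      exact le_sup_left
    · rw [← cmp_le_iff]
      exact le_sup_right
  · exact sup_le (cmp_le_cmp h h' le_sup_left) (cmp_le_cmp h h' le_sup_right)

theorem cmp_bb (h : IsComplDMCompletion e) (h' : IsComplDMCompletion e') (a b : A) :
    cmp h h' (bb h a b) = bb h' a b := by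
  apply le_antisymm
  · apply join_dense h'
    intro c d hcd
    rw [bb_le_cmp_iff, bb_le_bb_iff] at hcd
    rw [bb_le_bb_iff]
    exact hcd
  · apply join_dense h'
    intro c d hcd
    rw [bb_le_cmp_iff, bb_le_bb_iff]
    rw [bb_le_bb_iff] at hcd
    exact hcd

theorem bb_zero (h : IsComplDMCompletion e) (a : A) : bb h a 0 = e a := by
  unfold bb
  have : nn h.complemented (e 0) = 1 := by
    rw [e.map_zero]
    exact (nn_spec h.complemented 0).unique isComplementPair_zero_one
  rw [this, mul_one]

theorem cmp_e (h : IsComplDMCompletion e) (h' : IsComplDMCompletion e') (a : A) :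
    cmp h h' (e a) = e' a := by
  rw [← bb_zero h, cmp_bb, bb_zero]

theorem bb_mul_bb (h : IsComplDMCompletion e) (a b c d : A) :
    bb h a b * bb h c d = bb h (a * c) (b + d) := by
  unfold bb
  have : nn h.complemented (e (b + d)) = nn h.complemented (e b) * nn h.complemented (e d) := by
    rw [e.map_add]
    exact (nn_spec h.complemented _).unique
      ((nn_spec h.complemented _).add_mul (nn_spec h.complemented _))
  rw [this, e.map_mul]
  exact mul_mul_mul_comm _ _ _ _

theorem cmp_mul_le (h : IsComplDMCompletion e) (h' : IsComplDMCompletion e') (x y : B) :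
    cmp h h' x * cmp h h' y ≤ cmp h h' (x * y) := by
  have hy := nn_spec h'.complemented (cmp h h' y)
  rw [hy.symm.mul_le_iff]
  refine (cmp_spec h h' x).2 ?_
  rintro _ ⟨a, b, hab, rfl⟩
  rw [← hy.symm.mul_le_iff, mul_comm]
  have hz := nn_spec h'.complemented (bb h' a b)
  rw [hz.symm.mul_le_iff]
  refine (cmp_spec h h' y).2 ?_
  rintro _ ⟨c, d, hcd, rfl⟩
  rw [← hz.symm.mul_le_iff, mul_comm, bb_mul_bb, ← cmp_bb h h', ← bb_mul_bb]
  exact cmp_le_cmp h h' (mul_mono hab hcd)

theorem cmp_mul (h : IsComplDMCompletion e) (h' : IsComplDMCompletion e') (x y : B) :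
    cmp h h' (x * y) = cmp h h' x * cmp h h' y := by
  apply le_antisymm
  · rw [cmp_le_iff]
    have := cmp_mul_le h' h (cmp h h' x) (cmp h h' y)
    rwa [cmp_cmp, cmp_cmp] at this
  · exact cmp_mul_le h h' x y

theorem cmp_one (h : IsComplDMCompletion e) (h' : IsComplDMCompletion e') :
    cmp h h' (1 : B) = 1 := by
  rw [← e.map_one, cmp_e, e'.map_one]

theorem cmp_zero (h : IsComplDMCompletion e) (h' : IsComplDMCompletion e') :
    cmp h h' (0 : B) = 0 := by
  rw [← e.map_zero, cmp_e, e'.map_zero]

theorem cmp_pair (h : IsComplDMCompletion e) (h' : IsComplDMCompletion e') {x y : B}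
    (hxy : IsComplementPair x y) : IsComplementPair (cmp h h' x) (cmp h h' y) := by
  have h1 := nn_spec h'.complemented (cmp h h' x)
  have : cmp h h' y = nn h'.complemented (cmp h h' x) := by
    apply le_antisymm
    · have h2 : cmp h h' y * cmp h h' x ≤ 0 := by
        rw [← cmp_mul, ← cmp_zero h h']
        exact cmp_le_cmp h h' hxy.symm.1
      have h3 := (h1.symm.mul_le_iff (cmp h h' y) 0).1 h2
      rwa [zero_add] at h3
    · rw [← cmp_cmp h' h (nn h'.complemented (cmp h h' x))]
      apply cmp_le_cmp
      have h2 : cmp h' h (nn h'.complemented (cmp h h' x)) * x ≤ 0 := by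
        have : x = cmp h' h (cmp h h' x) := (cmp_cmp h h' x).symm
        conv_lhs => rw [this]
        rw [cmp_cmp, ← cmp_cmp h h' x]
        rw [cmp_cmp h h' x, ← cmp_mul, ← cmp_zero h' h]
        exact cmp_le_cmp h' h h1.symm.1
      have h3 := (hxy.symm.mul_le_iff _ 0).1 h2
      rwa [zero_add] at h3
  rw [this]
  exact h1

theorem cmp_add (h : IsComplDMCompletion e) (h' : IsComplDMCompletion e') (x y : B) :
    cmp h h' (x + y) = cmp h h' x + cmp h h' y := by
  have hx := nn_spec h.complemented x
  have hy := nn_spec h.complemented y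
  have h1 := cmp_pair h h' (hx.add_mul hy)
  rw [cmp_mul] at h1
  have h2 := (cmp_pair h h' hx).add_mul (cmp_pair h h' hy)
  exact h1.symm.unique h2.symm

/-- The comparison map is a homomorphism. -/
noncomputable def cmpHom (h : IsComplDMCompletion e) (h' : IsComplDMCompletion e') : BHom B B' where
  toFun := cmp h h'
  map_one' := cmp_one h h'
  map_zero' := cmp_zero h h'
  map_mul' := cmp_mul h h'
  map_add' := cmp_add h h'
  map_inf' := cmp_inf h h'
  map_sup' := cmp_sup h h'

/-- Any two complemented Dedekind-MacNeille completions of `A` are isomorphic over `A`. -/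
theorem completion_unique (h : IsComplDMCompletion e) (h' : IsComplDMCompletion e') :
    ∃ (φ : BHom B B') (ψ : BHom B' B), (∀ x, ψ (φ x) = x) ∧ (∀ y, φ (ψ y) = y) ∧
      (∀ a, φ (e a) = e' a) ∧ (∀ a, ψ (e' a) = e a) :=
  ⟨cmpHom h h', cmpHom h' h, fun x => cmp_cmp h h' x, fun y => cmp_cmp h' h y,
    fun a => cmp_e h h' a, fun a => cmp_e h' h a⟩

end Uniqueness

section Transport

variable {A B B' : Type u} [CommLBimonoid A] [CommLBimonoid B] [CommLBimonoid B']

theorem inVariety_of_injective (Eqs : Set (Tm × Tm)) (hB : InVariety Eqs B) (f : BHom A B)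
    (hf : Function.Injective f) : InVariety Eqs A := by
  intro p hp v
  apply hf
  rw [f.map_eval, f.map_eval]
  exact hB p hp _

theorem isInjectiveHull_of_iso (Eqs : Set (Tm × Tm)) {e : BHom A B} {e' : BHom A B'}
    (H : IsInjectiveHull Eqs e') (φ : BHom B B') (ψ : BHom B' B) (h1 : ∀ x, ψ (φ x) = x)
    (h2 : ∀ y, φ (ψ y) = y) (h3 : ∀ a, φ (e a) = e' a) (h4 : ∀ a, ψ (e' a) = e a) :
    IsInjectiveHull Eqs e := by
  have hφ : Function.Injective φ := fun x y hxy => by rw [← h1 x, ← h1 y, hxy]
  have hψ : Function.Injective ψ := fun x y hxy => by rw [← h2 x, ← h2 y, hxy]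
  refine ⟨inVariety_of_injective Eqs H.1 φ hφ, ⟨?_, ?_⟩, ?_⟩
  · intro a b hab
    apply H.2.1.1
    rw [← h3, ← h3, hab]
  · intro C _ hC f hf
    have := H.2.1.2 C hC (f.comp ψ) (by
      intro a b hab
      apply hf
      have hab' : f (ψ (e' a)) = f (ψ (e' b)) := hab
      rwa [h4, h4] at hab')
    intro x y hxy
    apply hφ
    apply this
    show f (ψ (φ x)) = f (ψ (φ y))
    rw [h1, h1, hxy]
  · intro A' B'' _ _ hA' hB'' i hi f
    obtain ⟨g, hg⟩ := H.2.2 A' B'' hA' hB'' i hi (φ.comp f)
    refine ⟨ψ.comp g, fun a => ?_⟩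
    show ψ (g (i a)) = f a
    rw [hg]
    exact h1 (f a)

end Transport

end Pool.Agent.Lib.MP_edd14c_al
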